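import Pool.Agent.H611.ST.Spl
import Pool.Graph.R_pool_sql_team_seeded_3997aac3.Q163.RX.Gen

set_option autoImplicit false

/-!
# Almost surely the grid condition holds for all modifications on a thin set of primes
-/

namespace Pool.Agent.H611.ST

open Finset Filter Topology MeasureTheory Pool.Agent.Q163.RP Pool.Agent.Q163.RX Pool.Agent.Q163.GC
  Pool.Agent.Y293.SF

/-- the count of coincidences at `N = j ^ A` -/
lemma cbound (A : ℕ) (hA : 1 ≤ A) : ∃ C : ℝ, 1 ≤ C ∧ ∀ j h : ℕ, 1 ≤ j → h ≤ j ^ A →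
    (((prs (j ^ A + h) h ×ˢ prs (j ^ A + h) h).filter fun t => cr (red t.1) = cr (red t.2)).card : ℝ) ≤
      100 * C * (A : ℝ) ^ 2 * (j : ℝ) ^ 2 * ((j : ℝ) ^ A * h) := by
  have hA0 : (0 : ℝ) < A := by exact_mod_cast hA
  obtain ⟨C, hC, hcnt⟩ := count (1 / (A : ℝ)) (by positivity)
  refine ⟨C, hC, fun j h hj1 hhA => ?_⟩
  have hjR : (1 : ℝ) ≤ j := by exact_mod_cast hj1
  have hjp : (0 : ℝ) < j := by linarith
  have hhR : (0 : ℝ) ≤ h := Nat.cast_nonneg _
  have hhA1 : (h : ℝ) ≤ (j : ℝ) ^ A := by exact_mod_cast hhA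
  set Y : ℕ := j ^ A + h with hY
  have hYR : (Y : ℝ) ≤ 2 * (j : ℝ) ^ A := by
    rw [hY]
    push_cast
    linarith
  have hY1 : (1 : ℝ) ≤ Y := by
    have : 1 ≤ Y := by
      have := Nat.one_le_pow A j hj1
      omega
    exact_mod_cast this
  have hy1 : (Y : ℝ) ^ (1 / (A : ℝ)) ≤ 2 * j := by
    calc (Y : ℝ) ^ (1 / (A : ℝ)) ≤ ((2 * (j : ℝ)) ^ (A : ℝ)) ^ (1 / (A : ℝ)) := by
          refine Real.rpow_le_rpow (by positivity) ?_ (by positivity)
          rw [Real.rpow_natCast, mul_pow]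
          refine hYR.trans (mul_le_mul_of_nonneg_right ?_ (by positivity))
          calc (2 : ℝ) = 2 ^ 1 := (pow_one _).symm
            _ ≤ 2 ^ A := pow_le_pow_right₀ (by norm_num) (by omega)
      _ = 2 * j := by
          rw [← Real.rpow_mul (by positivity), mul_one_div_cancel hA0.ne', Real.rpow_one]
  have hy2 : (1 + Real.log Y) ^ 2 ≤ 25 * (A : ℝ) ^ 2 * j := by
    have h2 : Real.log Y ≤ (Y : ℝ) ^ (1 / (2 * (A : ℝ))) / (1 / (2 * (A : ℝ))) :=
      Real.log_le_rpow_div (by positivity) (by positivity)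
    have h3 : (Y : ℝ) ^ (1 / (2 * (A : ℝ))) ≤ Real.sqrt (2 * j) := by
      have : (Y : ℝ) ^ (1 / (2 * (A : ℝ))) = Real.sqrt ((Y : ℝ) ^ (1 / (A : ℝ))) := by
        rw [Real.sqrt_eq_rpow, ← Real.rpow_mul (by positivity)]
        congr 1
        field_simp
      rw [this]
      exact Real.sqrt_le_sqrt hy1
    have h4 : Real.sqrt (2 * j) ≤ 2 * Real.sqrt j := by
      rw [Real.sqrt_mul (by norm_num)]
      refine mul_le_mul_of_nonneg_right ?_ (Real.sqrt_nonneg _)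
      rw [Real.sqrt_le_left (by norm_num)]
      norm_num
    have h5 : 1 ≤ Real.sqrt j := Real.one_le_sqrt.2 hjR
    have h6 : Real.log Y ≤ 4 * A * Real.sqrt j := by
      calc Real.log Y ≤ (Y : ℝ) ^ (1 / (2 * (A : ℝ))) / (1 / (2 * (A : ℝ))) := h2
        _ = 2 * A * (Y : ℝ) ^ (1 / (2 * (A : ℝ))) := by
            rw [div_div_eq_mul_div, div_one]
            ring
        _ ≤ 2 * A * (2 * Real.sqrt j) :=
            mul_le_mul_of_nonneg_left (h3.trans h4) (by positivity)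
        _ = 4 * A * Real.sqrt j := by ring
    have h7 : 0 ≤ 1 + Real.log Y := by
      have := Real.log_nonneg hY1
      linarith
    have hA1 : (1 : ℝ) ≤ A := by exact_mod_cast hA
    have h8 : 1 + Real.log Y ≤ 5 * A * Real.sqrt j := by nlinarith
    calc (1 + Real.log Y) ^ 2 ≤ (5 * A * Real.sqrt j) ^ 2 := pow_le_pow_left₀ h7 h8 2
      _ = 25 * (A : ℝ) ^ 2 * j := by
          rw [mul_pow, Real.sq_sqrt hjp.le]
          ring
  calc _ ≤ C * (Y : ℝ) ^ (1 / (A : ℝ)) * (Y * h * (1 + Real.log Y) ^ 2) := hcnt Y h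
    _ ≤ C * (2 * j) * ((2 * (j : ℝ) ^ A) * h * (25 * (A : ℝ) ^ 2 * j)) := by
        refine mul_le_mul (mul_le_mul_of_nonneg_left hy1 (by linarith)) ?_ (by positivity)
          (by positivity)
        exact mul_le_mul (mul_le_mul_of_nonneg_right hYR hhR) hy2 (by positivity)
          (by positivity)
    _ = 100 * C * (A : ℝ) ^ 2 * (j : ℝ) ^ 2 * ((j : ℝ) ^ A * h) := by ring

/-- the polarized coefficient -/
noncomputable def pol (b : Bool) (d d' n : ℕ) : ℝ :=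
  if b = true then (ad d n + ad d' n) / 2 else (ad d n - ad d' n) / 2

lemma abs_pol (b : Bool) (d d' n : ℕ) : |pol b d d' n| ≤ 1 := by
  have h1 := abs_le.1 (abs_ad d n)
  have h2 := abs_le.1 (abs_ad d' n)
  unfold pol
  split_ifs
  · rw [abs_le]
    constructor <;> linarith
  · rw [abs_le]
    constructor <;> linarith

lemma pol_ne {b : Bool} {d d' n : ℕ} (h : pol b d d' n ≠ 0) : Squarefree n := by
  by_contra hc
  have h1 : ∀ d, ad d n = 0 := fun d => by
    by_contra hc'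
    exact hc (ad_ne hc').2
  apply h
  unfold pol
  rw [h1, h1]
  simp

lemma OL_pol (d d' : ℕ) (ω : ℕ → Bool) (N h : ℕ) :
    OL (fun n => ad d n * ch ω n) (fun n => ad d' n * ch ω n) N h =
      (BB (fun n => pol true d d' n * ch ω n) N h - DD (pol true d d') N h) -
      (BB (fun n => pol false d d' n * ch ω n) N h - DD (pol false d d') N h) := by
  rw [OL_polar, ← DD_eq (pol true d d') ω, ← DD_eq (pol false d d') ω]
  have e1 : (fun n => (ad d n * ch ω n + ad d' n * ch ω n) / 2) = fun n => pol true d d' n * ch ω n := by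
    funext n
    unfold pol
    rw [if_pos rfl]
    ring
  have e2 : (fun n => (ad d n * ch ω n - ad d' n * ch ω n) / 2) = fun n => pol false d d' n * ch ω n := by
    funext n
    unfold pol
    rw [if_neg (by simp)]
    ring
  rw [e1, e2]

/-- the first family of events -/
theorem ev1 (b A : ℕ) (hA : 11 + 10 * b ≤ A) : ∀ᵐ ω ∂cm, ∀ᶠ j : ℕ in atTop,
    ∀ i u : ℕ, 1 ≤ u → u ≤ 2 * j → u * 2 ^ i * j ^ (10 + 10 * b) ≤ j ^ A →
    ∀ d ∈ Ioc 0 (j ^ b), ∀ d' ∈ Ioc 0 (j ^ b),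
      |OL (fun n => ad d n * ch ω n) (fun n => ad d' n * ch ω n) (j ^ A) (u * 2 ^ i)| ≤
        (u * 2 ^ i : ℕ) * (j : ℝ) ^ A / (4 * j * ((j ^ b : ℕ) : ℝ) ^ 4) := by
  classical
  have hA1' : 1 ≤ A := by omega
  have hA0 : (0 : ℝ) < A := by exact_mod_cast hA1'
  have hA1 : (1 : ℝ) ≤ A := by exact_mod_cast hA1'
  obtain ⟨C, hC, hcnt⟩ := cbound A hA1'
  set T : ℕ → Finset ((ℕ × ℕ) × ((ℕ × ℕ) × Bool)) := fun j =>
    ((range (A * j + 1)) ×ˢ (Icc 1 (2 * j))) ×ˢ
      (((Ioc 0 (j ^ b)) ×ˢ (Ioc 0 (j ^ b))) ×ˢ (univ : Finset Bool)) with hT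
  set E : ℕ → (ℕ × ℕ) × ((ℕ × ℕ) × Bool) → Set (ℕ → Bool) := fun j t =>
    {ω | t.1.2 * 2 ^ t.1.1 * j ^ (10 + 10 * b) ≤ j ^ A ∧
      ((t.1.2 * 2 ^ t.1.1 : ℕ) : ℝ) * (j : ℝ) ^ A / (8 * j * ((j ^ b : ℕ) : ℝ) ^ 4) ≤
      |BB (fun n => pol t.2.2 t.2.1.1 t.2.1.2 n * ch ω n) (j ^ A) (t.1.2 * 2 ^ t.1.1) -
        DD (pol t.2.2 t.2.1.1 t.2.1.2) (j ^ A) (t.1.2 * 2 ^ t.1.1)|} with hE
  have hb : ∀ᶠ j : ℕ in atTop, ∀ t ∈ T j, cm.real (E j t) ≤ 2 / ((T j).card * (j : ℝ) ^ 2) := by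
    obtain ⟨j0, hj0⟩ := exists_nat_ge (102400 * C * (A : ℝ) ^ 3)
    filter_upwards [eventually_ge_atTop (max j0 1)] with j hj t ht
    have hj1 : 1 ≤ j := le_of_max_le_right hj
    have hjR : (1 : ℝ) ≤ j := by exact_mod_cast hj1
    have hjp : (0 : ℝ) < j := by linarith
    have hjbig : 102400 * C * (A : ℝ) ^ 3 ≤ j := hj0.trans (by exact_mod_cast le_of_max_le_left hj)
    set D : ℝ := ((j ^ b : ℕ) : ℝ) with hD
    have hDe : D = (j : ℝ) ^ b := by rw [hD]; push_cast; rfl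
    have hD1 : 1 ≤ D := by rw [hDe]; exact one_le_pow₀ hjR
    have hD0 : 0 < D := by linarith
    have ht2 : 1 ≤ t.1.2 := by
      rw [hT, mem_product, mem_product, mem_range, mem_Icc] at ht
      exact ht.1.2.1
    by_cases hc : t.1.2 * 2 ^ t.1.1 * j ^ (10 + 10 * b) ≤ j ^ A
    swap
    · have : E j t = ∅ := by
        rw [hE]
        ext ω
        simp only [Set.mem_ofPred_eq, Set.mem_empty_iff_false, iff_false, not_and]
        exact fun h => absurd h hc
      rw [this, measureReal_empty]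
      positivity
    set h : ℕ := t.1.2 * 2 ^ t.1.1 with hh
    have hh1 : 1 ≤ h := Nat.mul_pos ht2 (by positivity)
    have hhR : (0 : ℝ) < h := by exact_mod_cast hh1
    have hl : (0 : ℝ) < (h : ℝ) * (j : ℝ) ^ A / (8 * j * D ^ 4) := by positivity
    set a := pol t.2.2 t.2.1.1 t.2.1.2 with ha
    have h1 : cm.real (E j t) ≤ cm.real {ω | (h : ℝ) * (j : ℝ) ^ A / (8 * j * D ^ 4) ≤
        |BB (fun n => a n * ch ω n) (j ^ A) h - DD a (j ^ A) h|} :=
      measureReal_mono (fun ω hω => hω.2)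
    refine h1.trans ((cheb a (abs_pol _ _ _) (fun n hn => pol_ne hn) (j ^ A) h _ hl).trans ?_)
    have hhA : (h : ℝ) * (j : ℝ) ^ (10 + 10 * b) ≤ (j : ℝ) ^ A := by exact_mod_cast hc
    have hhA' : h ≤ j ^ A := by
      refine le_trans ?_ hc
      exact Nat.le_mul_of_pos_right _ (by positivity)
    have hc1 := hcnt j h hj1 hhA'
    set c : ℝ := (((prs (j ^ A + h) h ×ˢ prs (j ^ A + h) h).filter
      fun t => cr (red t.1) = cr (red t.2)).card : ℝ) with hcdef
    have hcard : ((T j).card : ℝ) ≤ 8 * A * (j : ℝ) ^ 2 * D ^ 2 := by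
      rw [hT, card_product, card_product, card_product, card_product, card_range, Nat.card_Icc,
        Nat.card_Ioc, card_univ, Fintype.card_bool, Nat.add_sub_cancel, Nat.sub_zero]
      rw [hD]
      push_cast
      have h9 : (1 : ℝ) ≤ A * j := by nlinarith
      calc ((A : ℝ) * j + 1) * (2 * j) * ((j : ℝ) ^ b * (j : ℝ) ^ b * 2)
          ≤ (2 * (A * j)) * (2 * j) * ((j : ℝ) ^ b * (j : ℝ) ^ b * 2) :=
            mul_le_mul_of_nonneg_right (mul_le_mul_of_nonneg_right (by linarith) (by positivity))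
              (by positivity)
        _ = 8 * A * (j : ℝ) ^ 2 * ((j : ℝ) ^ b) ^ 2 := by ring
    have hcard0 : (0 : ℝ) < (T j).card := by
      have : 0 < (T j).card := card_pos.2 ⟨t, ht⟩
      exact_mod_cast this
    rw [div_le_div_iff₀ (by positivity) (by positivity)]
    have hD10 : D ^ 10 = (j : ℝ) ^ (10 * b) := by
      rw [hDe, ← pow_mul]
      congr 1
      ring
    have hlast : (h : ℝ) * ((j : ℝ) ^ 7 * (102400 * C * (A : ℝ) ^ 3) * D ^ 10) * (j : ℝ) ^ 2 ≤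
        (j : ℝ) ^ A := by
      refine le_trans ?_ hhA
      rw [hD10]
      calc (h : ℝ) * ((j : ℝ) ^ 7 * (102400 * C * (A : ℝ) ^ 3) * (j : ℝ) ^ (10 * b)) * (j : ℝ) ^ 2
          ≤ (h : ℝ) * ((j : ℝ) ^ 7 * j * (j : ℝ) ^ (10 * b)) * (j : ℝ) ^ 2 := by
            refine mul_le_mul_of_nonneg_right (mul_le_mul_of_nonneg_left
              (mul_le_mul_of_nonneg_right (mul_le_mul_of_nonneg_left hjbig (by positivity))
              (by positivity)) hhR.le) (by positivity)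
        _ = h * (j : ℝ) ^ (10 + 10 * b) := by
            rw [pow_add]
            ring
    calc 4 * (h : ℝ) ^ 2 * c * ((T j).card * (j : ℝ) ^ 2)
        ≤ 4 * (h : ℝ) ^ 2 * (100 * C * (A : ℝ) ^ 2 * (j : ℝ) ^ 2 * ((j : ℝ) ^ A * h)) *
            ((8 * A * (j : ℝ) ^ 2 * D ^ 2) * (j : ℝ) ^ 2) :=
          mul_le_mul (mul_le_mul_of_nonneg_left hc1 (by positivity))
            (mul_le_mul_of_nonneg_right hcard (by positivity)) (by positivity) (by positivity)
      _ = 2 * ((h : ℝ) ^ 2 * (j : ℝ) ^ A / (64 * j ^ 2 * D ^ 8)) *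
          ((h : ℝ) * ((j : ℝ) ^ 6 * (102400 * C * (A : ℝ) ^ 3) * D ^ 10) * (j : ℝ) ^ 2) := by
          field_simp
          ring
      _ ≤ 2 * ((h : ℝ) ^ 2 * (j : ℝ) ^ A / (64 * j ^ 2 * D ^ 8)) * (j : ℝ) ^ A := by
          refine mul_le_mul_of_nonneg_left (le_trans ?_ hlast) (by positivity)
          refine mul_le_mul_of_nonneg_right (mul_le_mul_of_nonneg_left
            (mul_le_mul_of_nonneg_right (mul_le_mul_of_nonneg_right
              (pow_le_pow_right₀ hjR (by norm_num)) (by positivity)) (by positivity)) hhR.le)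
            (by positivity)
      _ = 2 * ((h : ℝ) * (j : ℝ) ^ A / (8 * j * D ^ 4)) ^ 2 := by
          field_simp
          ring
  filter_upwards [bcf T E hb] with ω hω
  filter_upwards [hω, eventually_ge_atTop 1] with j hj hj1
  intro i u hu1 hu2 hc d hd d' hd'
  have hi : i < A * j + 1 := by
    have h1 : 2 ^ i ≤ (2 ^ j) ^ A := by
      calc 2 ^ i = 1 * 2 ^ i * 1 := by ring
        _ ≤ u * 2 ^ i * j ^ (10 + 10 * b) :=
            Nat.mul_le_mul (Nat.mul_le_mul_right _ hu1) (Nat.one_le_pow _ _ hj1)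
        _ ≤ j ^ A := hc
        _ ≤ (2 ^ j) ^ A := Nat.pow_le_pow_left (Nat.lt_two_pow_self).le _
    rw [← pow_mul] at h1
    have := (Nat.pow_le_pow_iff_right (by norm_num : 1 < 2)).1 h1
    rw [mul_comm j A] at this
    omega
  have h2 : ∀ bb : Bool, |BB (fun n => pol bb d d' n * ch ω n) (j ^ A) (u * 2 ^ i) -
      DD (pol bb d d') (j ^ A) (u * 2 ^ i)| ≤
      ((u * 2 ^ i : ℕ) : ℝ) * (j : ℝ) ^ A / (8 * j * ((j ^ b : ℕ) : ℝ) ^ 4) := by
    intro bb
    have h2 := hj ((i, u), ((d, d'), bb)) (by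
      rw [hT, mem_product, mem_product, mem_product, mem_product, mem_range, mem_Icc]
      exact ⟨⟨hi, hu1, hu2⟩, ⟨hd, hd'⟩, mem_univ _⟩)
    simp only [hE, Set.mem_ofPred_eq, not_and, not_le] at h2
    exact (h2 hc).le
  rw [OL_pol]
  refine (abs_sub _ _).trans ((add_le_add (h2 true) (h2 false)).trans (le_of_eq ?_))
  have hjp : (0 : ℝ) < j := by exact_mod_cast hj1
  have hD0 : (0 : ℝ) < ((j ^ b : ℕ) : ℝ) := by push_cast; positivity
  field_simp
  ring

/-- the second family of events -/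
theorem ev2 (Q : Set ℕ) (b A : ℕ) (hA : 11 + 10 * b ≤ A) (K : ℝ) (hK : 1 ≤ K)
    (hS : ∀ j Y : ℕ, 1 ≤ j → ∑ d ∈ Ioc (j ^ b) Y, ww Q d * ee d ≤ K / (j : ℝ) ^ 4) :
    ∀ᵐ ω ∂cm, ∀ᶠ j : ℕ in atTop,
    ∀ i u : ℕ, 1 ≤ u → u ≤ 2 * j → u * 2 ^ i * j ^ (10 + 10 * b) ≤ j ^ A →
      (K / (j : ℝ) ^ 4) * ∑ d ∈ Ioc (j ^ b) (j ^ A + u * 2 ^ i),
        ww Q d * (ee d)⁻¹ * BB (fun n => ad d n * ch ω n) (j ^ A) (u * 2 ^ i) ≤
        (1 / (20 * j)) ^ 2 * ((u * 2 ^ i : ℕ) * (j : ℝ) ^ A) := by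
  classical
  have hA1' : 1 ≤ A := by omega
  have hA0 : (0 : ℝ) < A := by exact_mod_cast hA1'
  have hA1 : (1 : ℝ) ≤ A := by exact_mod_cast hA1'
  set T : ℕ → Finset (ℕ × ℕ) := fun j => (range (A * j + 1)) ×ˢ (Icc 1 (2 * j)) with hT
  set Z : ℕ → ℕ → (ℕ → Bool) → ℝ := fun j h ω => ∑ d ∈ Ioc (j ^ b) (j ^ A + h),
    ww Q d * (ee d)⁻¹ * BB (fun n => ad d n * ch ω n) (j ^ A) h with hZ
  set E : ℕ → ℕ × ℕ → Set (ℕ → Bool) := fun j t =>
    {ω | t.2 * 2 ^ t.1 * j ^ (10 + 10 * b) ≤ j ^ A ∧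
      (1 / (20 * j)) ^ 2 * ((t.2 * 2 ^ t.1 : ℕ) * (j : ℝ) ^ A) / (K / (j : ℝ) ^ 4) ≤
        Z j (t.2 * 2 ^ t.1) ω} with hE
  have hb : ∀ᶠ j : ℕ in atTop, ∀ t ∈ T j, cm.real (E j t) ≤ 2 / ((T j).card * (j : ℝ) ^ 2) := by
    obtain ⟨j0, hj0⟩ := exists_nat_ge (2400 * K ^ 2 * A)
    filter_upwards [eventually_ge_atTop (max j0 1)] with j hj t ht
    have hj1 : 1 ≤ j := le_of_max_le_right hj
    have hjR : (1 : ℝ) ≤ j := by exact_mod_cast hj1
    have hjp : (0 : ℝ) < j := by linarith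
    have hjbig : 2400 * K ^ 2 * A ≤ j := hj0.trans (by exact_mod_cast le_of_max_le_left hj)
    have ht2 : 1 ≤ t.2 := by
      rw [hT, mem_product, mem_range, mem_Icc] at ht
      exact ht.2.1
    by_cases hc : t.2 * 2 ^ t.1 * j ^ (10 + 10 * b) ≤ j ^ A
    swap
    · have : E j t = ∅ := by
        rw [hE]
        ext ω
        simp only [Set.mem_ofPred_eq, Set.mem_empty_iff_false, iff_false, not_and]
        exact fun h => absurd h hc
      rw [this, measureReal_empty]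
      positivity
    set h : ℕ := t.2 * 2 ^ t.1 with hh
    have hh1 : 1 ≤ h := Nat.mul_pos ht2 (by positivity)
    have hhR : (0 : ℝ) < h := by exact_mod_cast hh1
    have hhA' : h ≤ j ^ A := by
      refine le_trans ?_ hc
      exact Nat.le_mul_of_pos_right _ (by positivity)
    set X : ℝ := (h : ℝ) * (j : ℝ) ^ A with hX
    have hX0 : 0 < X := by positivity
    set S' : ℝ := K / (j : ℝ) ^ 4 with hS'
    have hS0 : 0 < S' := by positivity
    set l : ℝ := (1 / (20 * j)) ^ 2 * X / S' with hl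
    have hl0 : 0 < l := by positivity
    have hjb : 1 ≤ j ^ b := Nat.one_le_pow _ _ hj1
    have hZ0 : ∀ ω, 0 ≤ Z j h ω := fun ω => sum_nonneg fun d hd => by
      have hd1 : 1 ≤ d := by
        have := (mem_Ioc.1 hd).1
        omega
      exact mul_nonneg (mul_nonneg (ww_nonneg Q d) (inv_nonneg.2 (ee_pos hd1).le))
        (sum_nonneg fun _ _ => sq_nonneg _)
    have hmean : ∀ d, Integrable (fun ω => BB (fun n => ad d n * ch ω n) (j ^ A) h) cm ∧
        ∫ ω, BB (fun n => ad d n * ch ω n) (j ^ A) h ∂cm = DD (ad d) (j ^ A) h := fun d =>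
      mean_BB (ad d) (abs_ad d) (fun n hn => (ad_ne hn).2) (j ^ A) h
    have hZi : Integrable (Z j h) cm := by
      rw [hZ]
      exact integrable_finsetSum _ fun d _ => (hmean d).1.const_mul _
    have hZm : ∫ ω, Z j h ω ∂cm ≤ 3 * X * S' := by
      rw [hZ]
      simp only
      rw [integral_finsetSum _ fun d _ => (hmean d).1.const_mul _]
      calc ∑ d ∈ Ioc (j ^ b) (j ^ A + h), ∫ ω, ww Q d * (ee d)⁻¹ *
            BB (fun n => ad d n * ch ω n) (j ^ A) h ∂cm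
          ≤ ∑ d ∈ Ioc (j ^ b) (j ^ A + h), 3 * X * (ww Q d * ee d) := by
            refine sum_le_sum fun d hd => ?_
            rw [mem_Ioc] at hd
            have hd1 : 1 ≤ d := by omega
            rw [integral_const_mul, (hmean d).2]
            have h4 := DD_ad d (j ^ A) h hd1 (by omega)
            calc ww Q d * (ee d)⁻¹ * DD (ad d) (j ^ A) h
                ≤ ww Q d * (ee d)⁻¹ * (3 * X / d) := by
                  refine mul_le_mul_of_nonneg_left ?_
                    (mul_nonneg (ww_nonneg Q d) (inv_nonneg.2 (ee_pos hd1).le))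
                  rw [hX]
                  push_cast at h4
                  exact h4
              _ = 3 * X * (ww Q d * ((ee d)⁻¹ / d)) := by ring
              _ = 3 * X * (ww Q d * ee d) := by rw [ee_inv_div hd1]
        _ = 3 * X * ∑ d ∈ Ioc (j ^ b) (j ^ A + h), ww Q d * ee d := by rw [mul_sum]
        _ ≤ 3 * X * S' := mul_le_mul_of_nonneg_left (hS j _ hj1) (by positivity)
    have h1 : cm.real (E j t) ≤ cm.real {ω | l ≤ Z j h ω} :=
      measureReal_mono (fun ω hω => hω.2)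
    have h2 := mul_meas_ge_le_integral_of_nonneg (μ := cm) (f := Z j h)
      (Filter.Eventually.of_forall hZ0) hZi l
    have h3 : cm.real {ω | l ≤ Z j h ω} ≤ 3 * X * S' / l := by
      rw [le_div_iff₀ hl0, mul_comm]
      exact h2.trans hZm
    refine h1.trans (h3.trans ?_)
    have h5 : 3 * X * S' / l = 1200 * K ^ 2 / (j : ℝ) ^ 6 := by
      rw [hl, hS']
      field_simp
      ring
    rw [h5]
    have hcard : ((T j).card : ℝ) ≤ 4 * A * (j : ℝ) ^ 2 := by
      rw [hT, card_product, card_range, Nat.card_Icc]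
      rw [Nat.add_sub_cancel]
      push_cast
      have h9 : (1 : ℝ) ≤ A * j := by nlinarith
      calc ((A : ℝ) * j + 1) * (2 * j) ≤ (2 * (A * j)) * (2 * j) :=
            mul_le_mul_of_nonneg_right (by linarith) (by positivity)
        _ = 4 * A * (j : ℝ) ^ 2 := by ring
    have hcard0 : (0 : ℝ) < (T j).card := by
      have : 0 < (T j).card := card_pos.2 ⟨t, ht⟩
      exact_mod_cast this
    rw [div_le_div_iff₀ (by positivity) (by positivity)]
    calc 1200 * K ^ 2 * ((T j).card * (j : ℝ) ^ 2)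
        ≤ 1200 * K ^ 2 * ((4 * A * (j : ℝ) ^ 2) * (j : ℝ) ^ 2) :=
          mul_le_mul_of_nonneg_left (mul_le_mul_of_nonneg_right hcard (by positivity)) (by positivity)
      _ = 2 * ((2400 * K ^ 2 * A) * (j : ℝ) ^ 4) := by ring
      _ ≤ 2 * (j * (j : ℝ) ^ 4) :=
          mul_le_mul_of_nonneg_left (mul_le_mul_of_nonneg_right hjbig (by positivity)) (by norm_num)
      _ = 2 * (j : ℝ) ^ 5 := by ring
      _ ≤ 2 * (j : ℝ) ^ 6 :=
          mul_le_mul_of_nonneg_left (pow_le_pow_right₀ hjR (by norm_num)) (by norm_num)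
  filter_upwards [bcf T E hb] with ω hω
  filter_upwards [hω, eventually_ge_atTop 1] with j hj hj1
  intro i u hu1 hu2 hc
  have hi : i < A * j + 1 := by
    have h1 : 2 ^ i ≤ (2 ^ j) ^ A := by
      calc 2 ^ i = 1 * 2 ^ i * 1 := by ring
        _ ≤ u * 2 ^ i * j ^ (10 + 10 * b) :=
            Nat.mul_le_mul (Nat.mul_le_mul_right _ hu1) (Nat.one_le_pow _ _ hj1)
        _ ≤ j ^ A := hc
        _ ≤ (2 ^ j) ^ A := Nat.pow_le_pow_left (Nat.lt_two_pow_self).le _
    rw [← pow_mul] at h1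
    have := (Nat.pow_le_pow_iff_right (by norm_num : 1 < 2)).1 h1
    rw [mul_comm j A] at this
    omega
  have h2 := hj (i, u) (by
    rw [hT, mem_product, mem_range, mem_Icc]
    exact ⟨hi, hu1, hu2⟩)
  simp only [hE, Set.mem_ofPred_eq, not_and, not_le] at h2
  have h3 := (h2 hc).le
  have hjp : (0 : ℝ) < j := by exact_mod_cast hj1
  have hS0 : 0 < K / (j : ℝ) ^ 4 := by positivity
  rw [le_div_iff₀ hS0] at h3
  rw [mul_comm]
  exact h3

/-- **The grid condition for all the modifications.** -/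
theorem grid_all (Q : Set ℕ) (s : ℝ) (hs : s < 1 / 2)
    (hQ : Summable fun q : Q => ((q : ℕ) : ℝ) ^ (-s)) (b : ℕ) (hb : 4 ≤ b * (1 / 2 - s)) (A : ℕ)
    (hA : 11 + 10 * b ≤ A) : ∀ᵐ ω ∂cm, ∀ᶠ j in atTop, ∀ ω' : ℕ → Bool,
      (∀ p : ℕ, p.Prime → ω' p ≠ ω p → p ∈ Q) →
      GridB (10 + 10 * b) (fun n => mu n * ch ω' n) A j := by
  obtain ⟨K, hK, hK2⟩ := euler Q s hQ
  have hS : ∀ j Y : ℕ, 1 ≤ j → ∑ d ∈ Ioc (j ^ b) Y, ww Q d * ee d ≤ K / (j : ℝ) ^ 4 := by
    intro j Y hj1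
    have hjR : (1 : ℝ) ≤ j := by exact_mod_cast hj1
    have hjp : (0 : ℝ) < j := by linarith
    have h1 : ∀ d ∈ Ioc (j ^ b) Y, ww Q d * ee d ≤ ww Q d * (d : ℝ) ^ (-s) * (1 / (j : ℝ) ^ 4) := by
      intro d hd
      rw [mul_assoc]
      refine mul_le_mul_of_nonneg_left ?_ (ww_nonneg Q d)
      have hd1 := (mem_Ioc.1 hd).1
      have hd0 : (0 : ℝ) < d := by
        have : 0 < d := by omega
        exact_mod_cast this
      unfold ee
      have e1 : (d : ℝ) ^ (-(1 / 2 : ℝ)) = (d : ℝ) ^ (-s) * (d : ℝ) ^ (-(1 / 2 - s)) := by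
        rw [← Real.rpow_add hd0]
        congr 1
        ring
      rw [e1]
      refine mul_le_mul_of_nonneg_left ?_ (by positivity)
      have hdj : (j : ℝ) ^ (b : ℝ) ≤ d := by
        rw [Real.rpow_natCast]
        exact_mod_cast hd1.le
      calc (d : ℝ) ^ (-(1 / 2 - s)) ≤ ((j : ℝ) ^ (b : ℝ)) ^ (-(1 / 2 - s)) :=
            Real.rpow_le_rpow_of_nonpos (by positivity) hdj (by linarith)
        _ = (j : ℝ) ^ (-(b * (1 / 2 - s))) := by
            rw [← Real.rpow_mul hjp.le]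
            congr 1
            ring
        _ ≤ (j : ℝ) ^ (-(4 : ℝ)) := Real.rpow_le_rpow_of_exponent_le hjR (by linarith)
        _ = 1 / (j : ℝ) ^ 4 := by
            rw [Real.rpow_neg hjp.le, one_div]
            congr 1
            exact_mod_cast Real.rpow_natCast (j : ℝ) 4
    refine (sum_le_sum h1).trans ?_
    rw [← sum_mul]
    have h2 := mul_le_mul_of_nonneg_right (hK2 (Ioc (j ^ b) Y)) (by positivity : 0 ≤ 1 / (j : ℝ) ^ 4)
    refine h2.trans (le_of_eq ?_)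
    ring
  filter_upwards [ev1 b A hA, ev2 Q b A hA K hK hS] with ω h1 h2
  obtain ⟨j0, hj0⟩ := exists_nat_ge (1200 * K ^ 2)
  filter_upwards [h1, h2, eventually_ge_atTop (max j0 1)] with j k1 k2 hj ω' hω' i u hu1 hu2 hc
  have hj1 : 1 ≤ j := le_of_max_le_right hj
  have hjR : (1 : ℝ) ≤ j := by exact_mod_cast hj1
  have hjp : (0 : ℝ) < j := by linarith
  have hjbig : 1200 * K ^ 2 ≤ j := hj0.trans (by exact_mod_cast le_of_max_le_left hj)
  set h := u * 2 ^ i with hh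
  have hNp : 1 ≤ j ^ A := Nat.one_le_pow _ _ hj1
  have hhA' : h ≤ j ^ A := by
    refine le_trans ?_ hc
    exact Nat.le_mul_of_pos_right _ (by positivity)
  have hDA : j ^ b ≤ j ^ A := Nat.pow_le_pow_right hj1 (by omega)
  set D : ℝ := ((j ^ b : ℕ) : ℝ) with hD
  have hD0 : 0 < D := by rw [hD]; push_cast; positivity
  set X : ℝ := (h : ℝ) * (j : ℝ) ^ A with hX
  have hX0 : 0 ≤ X := by positivity
  have hXe : (h : ℝ) * ((j ^ A : ℕ) : ℝ) = X := by rw [hX]; push_cast; rfl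
  have key := det Q ω ω' hω' (j ^ A) h (j ^ b) hNp hhA' hDA (1 / (20 * j)) (K / (j : ℝ) ^ 4)
    (X / (4 * j * D ^ 4)) (by positivity) (by
      rw [div_le_one (by positivity)]
      linarith) (hS j _ hj1) (by
      rw [div_pow, div_pow, ← mul_div_assoc, div_le_div_iff₀ (by positivity) (by positivity)]
      have e1 : (j : ℝ) ≤ j ^ 6 := le_self_pow₀ hjR (by norm_num)
      have e2 : 1200 * K ^ 2 * (j : ℝ) ^ 2 ≤ j ^ 6 * (j : ℝ) ^ 2 :=
        mul_le_mul_of_nonneg_right (hjbig.trans e1) (by positivity)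
      nlinarith) (by
      rw [hXe]
      exact k2 i u hu1 hu2 hc) (by
      rw [hXe]
      have e1 : D ^ 4 * (X / (4 * j * D ^ 4)) = X / (4 * j) := by
        field_simp
      rw [e1]
      exact div_le_self hX0 (by linarith)) (fun d hd d' hd' => k1 i u hu1 hu2 hc d hd d' hd')
  refine key.trans ?_
  rw [hXe, ← hD]
  have e1 : D ^ 4 * (X / (4 * j * D ^ 4)) + 13 * (1 / (20 * j)) * X = (18 / 20) * (X / j) := by
    field_simp
    ring
  rw [e1]
  have : 0 ≤ X / j := by positivity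
  linarith

/-- **All windows, for all the modifications.** -/
theorem windows_all (Q : Set ℕ) (s : ℝ) (hs : s < 1 / 2)
    (hQ : Summable fun q : Q => ((q : ℕ) : ℝ) ^ (-s)) : ∀ᵐ ω ∂cm, ∀ ω' : ℕ → Bool,
      (∀ p : ℕ, p.Prime → ω' p ≠ ω p → p ∈ Q) →
      ∀ ε : ℝ, 0 < ε → ∃ c C : ℝ, 0 < c ∧ 0 ≤ C ∧ ∀ N h : ℕ, 1 ≤ N → (h : ℝ) ≤ (N : ℝ) ^ (1 - ε) →
        |BB (fun n => mu n * ch ω' n) N h - DD mu N h| ≤ C * (h * N) * (N : ℝ) ^ (-c) := by
  have hσ : 0 < 1 / 2 - s := by linarith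
  obtain ⟨b, hb⟩ := exists_nat_ge (4 / (1 / 2 - s))
  have hb' : 4 ≤ b * (1 / 2 - s) := by
    rw [div_le_iff₀ hσ] at hb
    exact hb
  have h1 : ∀ᵐ ω ∂cm, ∀ A : ℕ, 11 + 10 * b ≤ A → ∀ᶠ j in atTop, ∀ ω' : ℕ → Bool,
      (∀ p : ℕ, p.Prime → ω' p ≠ ω p → p ∈ Q) →
      GridB (10 + 10 * b) (fun n => mu n * ch ω' n) A j := by
    rw [ae_all_iff]
    intro A
    by_cases hA : 11 + 10 * b ≤ A
    · filter_upwards [grid_all Q s hs hQ b hb' A hA] with ω hω _
      exact hω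
    · exact Eventually.of_forall fun ω h => absurd h hA
  filter_upwards [h1] with ω hω ω' hω' ε hε
  obtain ⟨A0, hA0⟩ := exists_nat_ge (((10 + 10 * b + 3 : ℕ) : ℝ) / ε)
  set A := max A0 (11 + 10 * b) with hA
  have hA13 : 11 + 10 * b ≤ A := le_max_right _ _
  have hAR : ((10 + 10 * b + 3 : ℕ) : ℝ) / ε ≤ A := hA0.trans (by exact_mod_cast le_max_left A0 _)
  have hAp : (0 : ℝ) < A := by
    have : 0 < A := by omega
    exact_mod_cast this
  obtain ⟨C, hC, h2⟩ := interpB (10 + 10 * b) (by omega) (abs_f mu abs_mu_le ω') A (by omega)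
    ((hω A hA13).mono fun j hj => hj ω' hω')
  refine ⟨1 / (2 * (A : ℝ)), C, by positivity, hC, fun N h hN hh => ?_⟩
  have hNR : (1 : ℝ) ≤ N := by exact_mod_cast hN
  have h3 := h2 N h hN (by
    have e1 : (N : ℝ) ^ (((10 + 10 * b + 3 : ℕ) : ℝ) / A) ≤ (N : ℝ) ^ ε := by
      refine Real.rpow_le_rpow_of_exponent_le hNR ?_
      rw [div_le_iff₀ hAp]
      rw [div_le_iff₀ hε] at hAR
      linarith
    calc (h : ℝ) * (N : ℝ) ^ (((10 + 10 * b + 3 : ℕ) : ℝ) / A) ≤ (N : ℝ) ^ (1 - ε) * (N : ℝ) ^ ε :=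
          mul_le_mul hh e1 (by positivity) (by positivity)
      _ = N := by
          rw [← Real.rpow_add (by linarith)]
          norm_num)
  rw [DD_eq] at h3
  exact h3

end Pool.Agent.H611.ST
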