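import Pool.Agent.H611.ST.Gen

set_option autoImplicit false

/-!
# Expansion of a modified multiplicative function over the divisors composed of modified primes
-/

namespace Pool.Agent.H611.ST

open Finset Filter Topology MeasureTheory Pool.Agent.Q163.RP Pool.Agent.Q163.RX Pool.Agent.Q163.GC
  Pool.Agent.Y293.SF

/-- the Moebius function restricted to the multiples of `d` -/
noncomputable def ad (d n : ℕ) : ℝ := if d ∣ n then mu n else 0

lemma abs_ad (d n : ℕ) : |ad d n| ≤ 1 := by
  unfold ad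
  split_ifs
  · exact abs_mu_le n
  · simp

lemma ad_ne {d n : ℕ} (h : ad d n ≠ 0) : d ∣ n ∧ Squarefree n := by
  unfold ad at h
  split_ifs at h with h1
  · exact ⟨h1, mu_ne n h⟩
  · exact absurd rfl h

/-- the effect of the change at the prime `p` -/
noncomputable def rr (ω ω' : ℕ → Bool) (p : ℕ) : ℝ := if ω' p = ω p then 0 else -2

/-- the coefficient of `d` -/
noncomputable def hh (ω ω' : ℕ → Bool) (d : ℕ) : ℝ := ∏ p ∈ d.primeFactors, rr ω ω' p

lemma ch_sqf (ω : ℕ → Bool) {n : ℕ} (hn : Squarefree n) : ch ω n = ∏ p ∈ n.primeFactors, es p ω := by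
  unfold ch mult
  refine Finset.prod_congr rfl fun p hp => ?_
  have h1 : n.factorization p = 1 := by
    have h2 := (Nat.squarefree_iff_factorization_le_one hn.ne_zero).1 hn p
    have h3 : 0 < n.factorization p :=
      (Nat.prime_of_mem_primeFactors hp).factorization_pos_of_dvd hn.ne_zero
        (Nat.dvd_of_mem_primeFactors hp)
    omega
  rw [h1, pow_one]
  unfold sg
  rw [if_pos (Set.mem_univ p)]

lemma es_change (ω ω' : ℕ → Bool) (p : ℕ) : es p ω' = es p ω * (1 + rr ω ω' p) := by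
  unfold es rr sgn
  cases h1 : ω p <;> cases h2 : ω' p <;> norm_num

lemma expand (ω ω' : ℕ → Bool) {n : ℕ} (hn : Squarefree n) :
    ch ω' n = ch ω n * ∑ d ∈ n.divisors, hh ω ω' d := by
  rw [ch_sqf ω' hn, ch_sqf ω hn]
  have h1 : ∏ p ∈ n.primeFactors, es p ω' = (∏ p ∈ n.primeFactors, es p ω) *
      ∏ p ∈ n.primeFactors, (1 + rr ω ω' p) := by
    rw [← prod_mul_distrib]
    exact prod_congr rfl fun p _ => es_change ω ω' p
  rw [h1]
  congr 1
  have h2 := (ArithmeticFunction.IsMultiplicative.prodPrimeFactors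
    (rr ω ω')).prodPrimeFactors_one_add_of_squarefree hn
  have h3 : ∏ p ∈ n.primeFactors, (1 + (ArithmeticFunction.prodPrimeFactors (rr ω ω')) p) =
      ∏ p ∈ n.primeFactors, (1 + rr ω ω' p) := by
    refine prod_congr rfl fun p hp => ?_
    have hp' := Nat.prime_of_mem_primeFactors hp
    rw [ArithmeticFunction.prodPrimeFactors_apply hp'.ne_zero, hp'.primeFactors, prod_singleton]
  rw [← h3, h2]
  refine sum_congr rfl fun d hd => ?_
  rw [ArithmeticFunction.prodPrimeFactors_apply (Nat.pos_of_mem_divisors hd).ne']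
  rfl

/-- the expansion of the modified function -/
lemma expand_mu (ω ω' : ℕ → Bool) (n Y : ℕ) (hn : 1 ≤ n) (hY : n ≤ Y) :
    mu n * ch ω' n = ∑ d ∈ Icc 1 Y, (if Squarefree d then hh ω ω' d else 0) * (ad d n * ch ω n) := by
  by_cases hs : Squarefree n
  · rw [expand ω ω' hs]
    have h1 : n.divisors ⊆ Icc 1 Y := fun d hd => by
      rw [mem_Icc]
      exact ⟨Nat.pos_of_mem_divisors hd, (Nat.divisor_le hd).trans hY⟩
    rw [← sum_subset h1]
    · rw [mul_sum, mul_sum]
      refine sum_congr rfl fun d hd => ?_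
      have h2 := Nat.dvd_of_mem_divisors hd
      rw [if_pos (hs.squarefree_of_dvd h2)]
      unfold ad
      rw [if_pos h2]
      ring
    · intro d _ hd
      have h3 : ad d n = 0 := by
        unfold ad
        rw [if_neg]
        intro h2
        exact hd (Nat.mem_divisors.2 ⟨h2, by omega⟩)
      rw [h3]
      ring
  · have h1 : ∀ d, ad d n = 0 := fun d => by
      by_contra hc
      exact hs (ad_ne hc).2
    have h2 : mu n = 0 := by
      by_contra hc
      exact hs (mu_ne n hc)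
    rw [h2, zero_mul]
    symm
    refine sum_eq_zero fun d _ => ?_
    rw [h1, zero_mul, mul_zero]

open Classical in
/-- the weight of `d` -/
noncomputable def ww (Q : Set ℕ) (d : ℕ) : ℝ :=
  if Squarefree d ∧ ∀ p ∈ d.primeFactors, p ∈ Q then ∏ _p ∈ d.primeFactors, (2 : ℝ) else 0

lemma ww_nonneg (Q : Set ℕ) (d : ℕ) : 0 ≤ ww Q d := by
  unfold ww
  split_ifs
  · exact prod_nonneg fun _ _ => by norm_num
  · exact le_rfl

lemma ww_le (Q : Set ℕ) (d : ℕ) : ww Q d ≤ d := by
  unfold ww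
  split_ifs with h
  · have h1 : (d : ℝ) = ∏ p ∈ d.primeFactors, (p : ℝ) := by
      have := Nat.prod_primeFactors_of_squarefree h.1
      conv_lhs => rw [← this]
      push_cast
      rfl
    rw [h1]
    refine prod_le_prod (fun _ _ => by norm_num) fun p hp => ?_
    exact_mod_cast (Nat.prime_of_mem_primeFactors hp).two_le
  · exact Nat.cast_nonneg _

lemma abs_hh_le (Q : Set ℕ) (ω ω' : ℕ → Bool) (hQ : ∀ p : ℕ, p.Prime → ω' p ≠ ω p → p ∈ Q) (d : ℕ) :
    |if Squarefree d then hh ω ω' d else 0| ≤ ww Q d := by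
  by_cases hs : Squarefree d
  · rw [if_pos hs]
    unfold hh
    rw [abs_prod]
    by_cases hq : ∀ p ∈ d.primeFactors, p ∈ Q
    · unfold ww
      rw [if_pos ⟨hs, hq⟩]
      refine prod_le_prod (fun _ _ => abs_nonneg _) fun p _ => ?_
      unfold rr
      split_ifs <;> norm_num
    · push Not at hq
      obtain ⟨p, hp, hpQ⟩ := hq
      have h1 : rr ω ω' p = 0 := by
        unfold rr
        rw [if_pos]
        by_contra hc
        exact hpQ (hQ p (Nat.prime_of_mem_primeFactors hp) hc)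
      rw [prod_eq_zero hp (by rw [h1, abs_zero])]
      exact ww_nonneg Q d
  · rw [if_neg hs, abs_zero]
    exact ww_nonneg Q d

/-- the Euler product bound -/
lemma euler (Q : Set ℕ) (s : ℝ) (hQ : Summable fun q : Q => ((q : ℕ) : ℝ) ^ (-s)) :
    ∃ K : ℝ, 1 ≤ K ∧ ∀ S : Finset ℕ, ∑ d ∈ S, ww Q d * (d : ℝ) ^ (-s) ≤ K := by
  classical
  set B := ∑' q : Q, ((q : ℕ) : ℝ) ^ (-s) with hB
  refine ⟨Real.exp (2 * B), ?_, fun S => ?_⟩
  · refine Real.one_le_exp (mul_nonneg (by norm_num) ?_)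
    rw [hB]
    exact tsum_nonneg fun q => by positivity
  set S' := S.filter fun d => Squarefree d ∧ ∀ p ∈ d.primeFactors, p ∈ Q with hS'
  set P : Finset ℕ := S'.biUnion fun d => d.primeFactors with hP
  have hPQ : ∀ p ∈ P, p ∈ Q := by
    intro p hp
    rw [hP, mem_biUnion] at hp
    obtain ⟨d, hd, hpd⟩ := hp
    rw [hS', mem_filter] at hd
    exact hd.2.2 p hpd
  have h1 : ∑ d ∈ S, ww Q d * (d : ℝ) ^ (-s) =
      ∑ d ∈ S', ∏ p ∈ d.primeFactors, (2 * (p : ℝ) ^ (-s)) := by
    rw [hS', sum_filter]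
    refine sum_congr rfl fun d _ => ?_
    unfold ww
    split_ifs with h
    · rw [prod_mul_distrib]
      congr 1
      rw [Real.finsetProd_rpow _ _ fun i _ => Nat.cast_nonneg i]
      congr 1
      have := Nat.prod_primeFactors_of_squarefree h.1
      conv_lhs => rw [← this]
      push_cast
      rfl
    · rw [zero_mul]
  rw [h1]
  have hinj : Set.InjOn Nat.primeFactors (S' : Set ℕ) := by
    intro a ha b hb hab
    rw [mem_coe, hS', mem_filter] at ha hb
    rw [← Nat.prod_primeFactors_of_squarefree ha.2.1, ← Nat.prod_primeFactors_of_squarefree hb.2.1,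
      hab]
  have h2 : ∑ d ∈ S', ∏ p ∈ d.primeFactors, (2 * (p : ℝ) ^ (-s)) =
      ∑ T ∈ S'.image Nat.primeFactors, ∏ p ∈ T, (2 * (p : ℝ) ^ (-s)) :=
    (sum_image (f := fun T : Finset ℕ => ∏ p ∈ T, (2 * (p : ℝ) ^ (-s))) (s := S')
      (g := Nat.primeFactors) (fun a ha b hb h => hinj ha hb h)).symm
  have h3 : S'.image Nat.primeFactors ⊆ P.powerset := by
    intro T hT
    rw [mem_image] at hT
    obtain ⟨d, hd, rfl⟩ := hT
    rw [mem_powerset]
    exact subset_biUnion_of_mem (fun d => d.primeFactors) hd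
  rw [h2]
  refine (sum_le_sum_of_subset_of_nonneg h3 fun T _ _ => prod_nonneg fun p _ => by positivity).trans ?_
  rw [← prod_one_add]
  calc ∏ p ∈ P, (1 + 2 * (p : ℝ) ^ (-s)) ≤ ∏ p ∈ P, Real.exp (2 * (p : ℝ) ^ (-s)) := by
        refine prod_le_prod (fun p _ => by positivity) fun p _ => ?_
        rw [add_comm]
        exact Real.add_one_le_exp _
    _ = Real.exp (∑ p ∈ P, 2 * (p : ℝ) ^ (-s)) := (Real.exp_sum _ _).symm
    _ ≤ Real.exp (2 * B) := by
        rw [Real.exp_le_exp, ← mul_sum]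
        refine mul_le_mul_of_nonneg_left ?_ (by norm_num)
        have h4 : ∑ p ∈ P, (p : ℝ) ^ (-s) = ∑ q ∈ P.subtype (· ∈ Q), ((q : ℕ) : ℝ) ^ (-s) := by
          rw [sum_subtype_of_mem (f := fun p : ℕ => (p : ℝ) ^ (-s)) hPQ]
        rw [h4]
        exact hQ.sum_le_tsum _ fun q _ => by positivity

end Pool.Agent.H611.ST
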