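import Pool.Agent.H611.ST.AE

set_option autoImplicit false

/-!
# Destroying the variance law by changing the signs at a thin set of primes
-/

namespace Pool.Agent.H611.ST

open Finset Filter Topology MeasureTheory Pool.Agent.Q163.RP Pool.Agent.Q163.RX Pool.Agent.Q163.GC
  Pool.Agent.Y293.SF

/-- integrability -/
lemma int_Mf (f : ℕ → ℝ) (H A B : ℝ) (hH : 0 ≤ H) (hA : H / 2 ≤ A) (hAB : A ≤ B) :
    IntervalIntegrable (fun x => Mf f x H ^ 2) volume A B := by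
  have h1 := (int_int f (fun x => x ^ 2) H hH 0 ⌈B⌉₊ (Nat.zero_le _)).1
  have h2 := h1.comp_sub_right (H / 2)
  simp only [sub_add_cancel] at h2
  have h4 := Nat.le_ceil B
  refine h2.mono_set ?_
  rw [Set.uIcc_of_le hAB, Set.uIcc_of_le (by push_cast; linarith)]
  refine Set.Icc_subset_Icc ?_ ?_
  · push_cast
    linarith
  · linarith

lemma Mf_congr (f g : ℕ → ℝ) (x H Y : ℝ) (hY : x + H / 2 ≤ Y) (h : ∀ n : ℕ, (n : ℝ) < Y → f n = g n) :
    Mf f x H = Mf g x H := by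
  unfold Mf
  refine sum_congr rfl fun n hn => ?_
  rw [mem_filter, abs_lt] at hn
  exact h n (by linarith [hn.2.2])

lemma diff_M (fp fm : ℕ → ℝ) (Q0 : Finset ℕ) (P L : ℕ) (H x : ℝ) (hx1 : (P : ℝ) ≤ x)
    (hx2 : x ≤ P + L) (hQ0 : ∀ q ∈ Q0, P < q ∧ q ≤ P + L) (hL : (L : ℝ) < H / 2)
    (hP : (L : ℝ) + H / 2 ≤ P) (h1 : ∀ q ∈ Q0, fp q = 1) (h2 : ∀ q ∈ Q0, fm q = -1)
    (h3 : ∀ n < 2 * P, n ∉ Q0 → fp n = fm n) : Mf fp x H - Mf fm x H = 2 * Q0.card := by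
  unfold Mf
  rw [← sum_sub_distrib]
  have hsub : Q0 ⊆ (range (⌈x + H⌉₊ + 1)).filter (fun n : ℕ => |(n : ℝ) - x| < H / 2) := by
    intro q hq
    obtain ⟨a1, a2⟩ := hQ0 q hq
    have b1 : (P : ℝ) < q := by exact_mod_cast a1
    have b2 : (q : ℝ) ≤ P + L := by exact_mod_cast a2
    rw [mem_filter, mem_range, abs_lt]
    refine ⟨?_, by linarith, by linarith⟩
    have c1 : (q : ℝ) < ⌈x + H⌉₊ := lt_of_lt_of_le (by linarith) (Nat.le_ceil _)
    have : q < ⌈x + H⌉₊ := by exact_mod_cast c1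
    omega
  rw [← sum_subset hsub]
  · rw [sum_congr rfl (fun q hq => by rw [h1 q hq, h2 q hq] :
      ∀ q ∈ Q0, fp q - fm q = (1 : ℝ) - (-1)), sum_const, nsmul_eq_mul]
    ring
  · intro n hn hnQ
    rw [mem_filter, abs_lt] at hn
    have c1 : (n : ℝ) < ((2 * P : ℕ) : ℝ) := by
      push_cast
      linarith [hn.2.2]
    rw [h3 n (by exact_mod_cast c1) hnQ, sub_self]

lemma ch_congr (ω1 ω2 : ℕ → Bool) (n : ℕ) (h : ∀ p ∈ n.primeFactors, ω1 p = ω2 p) :
    ch ω1 n = ch ω2 n := by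
  unfold ch mult sg es
  refine prod_congr rfl fun p hp => ?_
  rw [h p hp]

/-- the twisted Moebius function -/
noncomputable def mc (ω : ℕ → Bool) (n : ℕ) : ℝ := mu n * ch ω n

lemma mc_prime (ω : ℕ → Bool) {q : ℕ} (hq : q.Prime) : mc ω q = if ω q = true then -1 else 1 := by
  unfold mc
  rw [ch_sqf ω hq.squarefree, hq.primeFactors, prod_singleton]
  have h1 : mu q = -1 := by
    unfold mu
    rw [ArithmeticFunction.moebius_apply_prime hq]
    norm_num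
  rw [h1]
  unfold es sgn
  split_ifs <;> norm_num

lemma mc_congr (ω1 ω2 : ℕ → Bool) (n : ℕ) (h : ∀ p : ℕ, p.Prime → p ∣ n → n ≠ 0 → ω1 p = ω2 p) :
    mc ω1 n = mc ω2 n := by
  unfold mc
  rw [ch_congr ω1 ω2 n fun p hp => h p (Nat.prime_of_mem_primeFactors hp)
    (Nat.dvd_of_mem_primeFactors hp) (by
      rintro rfl
      simp at hp)]

/-! ### scales with many primes -/

/-- the primes in a block -/
def blk16 (t : ℕ) : Finset ℕ := (Ioc (16 ^ (t + 1)) (16 ^ (t + 2))).filter Nat.Prime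

lemma frequently_good : ∃ᶠ t in atTop, 16 ^ (t + 1) ≤ (t + 1) ^ 2 * (blk16 t).card := by
  intro hc
  simp only [not_le] at hc
  obtain ⟨t0, ht0⟩ := eventually_atTop.1 hc
  apply not_summable_one_div_on_primes
  set F : ℕ → ℝ := Set.indicator {p | p.Prime} (fun n : ℕ => (1 : ℝ) / n) with hF
  have hF0 : ∀ n, 0 ≤ F n := fun n => Set.indicator_nonneg (fun n _ => by positivity) n
  have hblk : ∀ t, t0 ≤ t → ∑ n ∈ Ioc (16 ^ (t + 1)) (16 ^ (t + 2)), F n ≤ 1 / ((t + 1 : ℕ) : ℝ) ^ 2 := by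
    intro t ht
    have h1 : ∑ n ∈ Ioc (16 ^ (t + 1)) (16 ^ (t + 2)), F n = ∑ n ∈ blk16 t, (1 : ℝ) / n := by
      unfold blk16
      rw [sum_filter]
      refine sum_congr rfl fun n _ => ?_
      rw [hF, Set.indicator_apply]
      rfl
    rw [h1]
    have h2 : ∀ n ∈ blk16 t, (1 : ℝ) / n ≤ 1 / (16 : ℝ) ^ (t + 1) := by
      intro n hn
      unfold blk16 at hn
      rw [mem_filter, mem_Ioc] at hn
      refine one_div_le_one_div_of_le (by positivity) ?_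
      exact_mod_cast hn.1.1.le
    refine (sum_le_sum h2).trans ?_
    rw [sum_const, nsmul_eq_mul, mul_one_div]
    have h3 : (((t + 1) ^ 2 * (blk16 t).card : ℕ) : ℝ) ≤ ((16 ^ (t + 1) : ℕ) : ℝ) := by
      exact_mod_cast (ht0 t ht).le
    push_cast at h3
    rw [div_le_div_iff₀ (by positivity) (by positivity), one_mul]
    push_cast
    linarith
  have hsum2 : Summable fun t : ℕ => 1 / ((t + 1 : ℕ) : ℝ) ^ 2 :=
    (summable_nat_add_iff 1).2 (Real.summable_one_div_nat_pow.2 (by norm_num : 1 < 2))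
  set c0 := ∑ n ∈ range (16 ^ (t0 + 1) + 1), F n with hc0
  have hind : ∀ k, ∑ n ∈ range (16 ^ (t0 + k + 1) + 1), F n ≤
      c0 + ∑ i ∈ range k, 1 / ((t0 + i + 1 : ℕ) : ℝ) ^ 2 := by
    intro k
    induction k with
    | zero => simp [hc0]
    | succ k ih =>
      rw [sum_range_succ (fun i : ℕ => 1 / ((t0 + i + 1 : ℕ) : ℝ) ^ 2) k]
      have h1 := hblk (t0 + k) (by omega)
      have h2 : ∑ n ∈ range (16 ^ (t0 + (k + 1) + 1) + 1), F n =
          ∑ n ∈ range (16 ^ (t0 + k + 1) + 1), F n +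
          ∑ n ∈ Ioc (16 ^ (t0 + k + 1)) (16 ^ (t0 + k + 2)), F n := by
        have h3 : Ioc (16 ^ (t0 + k + 1)) (16 ^ (t0 + k + 2)) =
            Ico (16 ^ (t0 + k + 1) + 1) (16 ^ (t0 + k + 2) + 1) := by
          ext y
          simp only [mem_Ioc, mem_Ico]
          omega
        rw [h3, sum_range_add_sum_Ico _ (by
          have := Nat.pow_le_pow_right (by norm_num : 0 < 16) (by omega : t0 + k + 1 ≤ t0 + k + 2)
          omega)]
        rfl
      rw [h2]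
      linarith
  refine summable_of_sum_range_le (c := c0 + ∑' i : ℕ, 1 / ((i + 1 : ℕ) : ℝ) ^ 2) hF0 fun n => ?_
  have h1 : ∑ i ∈ range n, F i ≤ ∑ i ∈ range (16 ^ (t0 + n + 1) + 1), F i := by
    refine sum_le_sum_of_subset_of_nonneg (range_subset_range.2 ?_) fun i _ _ => hF0 i
    have h2 : n < 16 ^ n := Nat.lt_pow_self (by norm_num)
    have h3 : 16 ^ n ≤ 16 ^ (t0 + n + 1) := Nat.pow_le_pow_right (by norm_num) (by omega)
    omega
  refine h1.trans ((hind n).trans ?_)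
  have h4 : ∑ i ∈ range n, 1 / ((t0 + i + 1 : ℕ) : ℝ) ^ 2 ≤ ∑' i : ℕ, 1 / ((i + 1 : ℕ) : ℝ) ^ 2 := by
    have h5 : ∑ i ∈ range n, 1 / ((t0 + i + 1 : ℕ) : ℝ) ^ 2 ≤ ∑ i ∈ range n, 1 / ((i + 1 : ℕ) : ℝ) ^ 2 := by
      refine sum_le_sum fun i _ => ?_
      refine one_div_le_one_div_of_le (by positivity) ?_
      refine pow_le_pow_left₀ (by positivity) ?_ 2
      exact_mod_cast (by omega : i + 1 ≤ t0 + i + 1)
    exact h5.trans (hsum2.sum_le_tsum _ fun i _ => by positivity)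
  linarith

/-- a scale -/
structure Scale (t P : ℕ) (Q0 : Finset ℕ) : Prop where
  lo : 16 ^ (t + 1) ≤ P
  hi : P + 8 ^ t ≤ 16 ^ (t + 2)
  pr : ∀ q ∈ Q0, q.Prime ∧ P < q ∧ q ≤ P + 8 ^ t
  cd : Q0.card = t * 4 ^ t

lemma scale_of_good : ∀ᶠ t in atTop, 16 ^ (t + 1) ≤ (t + 1) ^ 2 * (blk16 t).card →
    ∃ P Q0, Scale t P Q0 := by
  have h1 : ∀ᶠ t : ℕ in atTop, 15 * t * (t + 1) ^ 2 < 2 ^ t := by
    have h2 := (tendsto_pow_const_div_const_pow_of_one_lt 3 (by norm_num : (1 : ℝ) < 2))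
    filter_upwards [h2.eventually (gt_mem_nhds (by norm_num : (0 : ℝ) < 1 / 60)),
      eventually_ge_atTop 1] with t ht ht1
    rw [div_lt_iff₀ (by positivity)] at ht
    have h3 : 15 * t * (t + 1) ^ 2 ≤ 60 * t ^ 3 := by
      have : (t + 1) ^ 2 ≤ (2 * t) ^ 2 := Nat.pow_le_pow_left (by omega) 2
      calc 15 * t * (t + 1) ^ 2 ≤ 15 * t * (2 * t) ^ 2 := Nat.mul_le_mul_left _ this
        _ = 60 * t ^ 3 := by ring
    have h4 : ((60 * t ^ 3 : ℕ) : ℝ) < ((2 ^ t : ℕ) : ℝ) := by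
      push_cast
      linarith
    exact lt_of_le_of_lt h3 (by exact_mod_cast h4)
  filter_upwards [h1] with t ht hg
  set s := blk16 t with hs
  have hcard : (range (240 * 2 ^ t)).card * (t * 4 ^ t) ≤ s.card := by
    rw [card_range]
    by_contra hc
    push Not at hc
    have h3 : 16 ^ (t + 1) < 16 * (15 * t * (t + 1) ^ 2) * (8 ^ t) := by
      calc 16 ^ (t + 1) ≤ (t + 1) ^ 2 * s.card := hg
        _ < (t + 1) ^ 2 * (240 * 2 ^ t * (t * 4 ^ t)) := Nat.mul_lt_mul_of_pos_left hc (by positivity)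
        _ = 16 * (15 * t * (t + 1) ^ 2) * (2 ^ t * 4 ^ t) := by ring
        _ = 16 * (15 * t * (t + 1) ^ 2) * (8 ^ t) := by rw [← Nat.mul_pow]
    have h4 : 16 * (15 * t * (t + 1) ^ 2) * (8 ^ t) ≤ 16 ^ (t + 1) := by
      calc 16 * (15 * t * (t + 1) ^ 2) * (8 ^ t) ≤ 16 * 2 ^ t * 8 ^ t :=
            Nat.mul_le_mul_right _ (Nat.mul_le_mul_left _ ht.le)
        _ = 16 * (2 * 8) ^ t := by rw [Nat.mul_pow]; ring
        _ = 16 ^ (t + 1) := by rw [pow_succ]; ring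
    omega
  have hpow : 0 < 8 ^ t := by positivity
  have hlen : 16 ^ (t + 2) = 16 ^ (t + 1) + 240 * 2 ^ t * 8 ^ t := by
    have : 16 ^ t = 2 ^ t * 8 ^ t := by rw [← Nat.mul_pow]
    rw [pow_succ, pow_succ, this]
    ring
  have hmem : ∀ q ∈ s, 16 ^ (t + 1) < q ∧ q ≤ 16 ^ (t + 2) ∧ q.Prime := by
    intro q hq
    rw [hs] at hq
    unfold blk16 at hq
    rw [mem_filter, mem_Ioc] at hq
    exact ⟨hq.1.1, hq.1.2, hq.2⟩
  obtain ⟨i, hi, hic⟩ := exists_le_card_fiber_of_mul_le_card_of_maps_to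
    (f := fun q : ℕ => (q - 16 ^ (t + 1) - 1) / 8 ^ t) (s := s) (t := range (240 * 2 ^ t))
    (fun q hq => by
      obtain ⟨a1, a2, _⟩ := hmem q hq
      rw [mem_range, Nat.div_lt_iff_lt_mul hpow]
      omega) ⟨0, by rw [mem_range]; positivity⟩ hcard
  obtain ⟨Q0, hQ0, hQc⟩ := exists_subset_card_eq hic
  rw [mem_range] at hi
  refine ⟨16 ^ (t + 1) + i * 8 ^ t, Q0, ⟨by omega, ?_, fun q hq => ?_, hQc⟩⟩
  · rw [hlen]
    have : (i + 1) * 8 ^ t ≤ 240 * 2 ^ t * 8 ^ t := Nat.mul_le_mul_right _ hi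
    rw [Nat.add_mul, one_mul] at this
    omega
  · have h3 := hQ0 hq
    rw [mem_filter] at h3
    obtain ⟨a1, a2, a3⟩ := hmem q h3.1
    have h4 : i * 8 ^ t ≤ q - 16 ^ (t + 1) - 1 := by
      rw [← h3.2]
      exact Nat.div_mul_le_self _ _
    have h5 : q - 16 ^ (t + 1) - 1 < (i + 1) * 8 ^ t := by
      rw [← h3.2]
      exact Nat.lt_mul_of_div_lt (Nat.lt_succ_self _) hpow
    rw [Nat.add_mul, one_mul] at h5
    exact ⟨a3, by omega, by omega⟩

/-- a sequence of scales -/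
lemma exists_scales : ∃ τ P : ℕ → ℕ, ∃ Qs : ℕ → Finset ℕ, (∀ k, Scale (τ k) (P k) (Qs k)) ∧
    (∀ k, τ k + 2 ≤ τ (k + 1)) ∧ ∀ k, k + 2 ≤ τ k := by
  have h1 : ∃ᶠ t in atTop, ∃ P Q0, Scale t P Q0 :=
    (frequently_good.and_eventually scale_of_good).mono fun t ht => ht.2 ht.1
  obtain ⟨φ, hφ, h2⟩ := extraction_of_frequently_atTop h1
  choose P Q0 h3 using h2
  refine ⟨fun k => φ (2 * k + 2), fun k => P (2 * k + 2), fun k => Q0 (2 * k + 2),
    fun k => h3 _, fun k => ?_, fun k => ?_⟩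
  · have a1 := hφ (by omega : 2 * k + 2 < 2 * k + 3)
    have a2 := hφ (by omega : 2 * k + 3 < 2 * (k + 1) + 2)
    show φ (2 * k + 2) + 2 ≤ φ (2 * (k + 1) + 2)
    omega
  · have := hφ.id_le (2 * k + 2)
    show k + 2 ≤ φ (2 * k + 2)
    simp only [id] at this
    omega

/-- choosing signs scale by scale -/
lemma exists_seq (B : ℕ → (ℕ → Bool) → Prop)
    (hdep : ∀ k c c', (∀ i ≤ k, c i = c' i) → B k c → B k c')
    (hstep : ∀ k c, ∃ b, B k (Function.update c k b)) : ∃ c, ∀ k, B k c := by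
  choose G hG using hstep
  let F : ℕ → ℕ → Bool := fun n => Nat.rec (fun _ => false) (fun k c => Function.update c k (G k c)) n
  have hF : ∀ n, F (n + 1) = Function.update (F n) n (G n (F n)) := fun n => rfl
  refine ⟨fun k => F (k + 1) k, fun k => ?_⟩
  have h1 : ∀ n, ∀ i < n, F n i = F (i + 1) i := by
    intro n
    induction n with
    | zero => intro i hi; omega
    | succ n ih =>
      intro i hi
      rcases Nat.lt_succ_iff_lt_or_eq.1 hi with h | h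
      · rw [hF, Function.update_of_ne (by omega)]
        exact ih i h
      · subst h
        rfl
  refine hdep k (F (k + 1)) _ (fun i hi => h1 (k + 1) i (by omega)) ?_
  rw [hF]
  exact hG k (F k)

open Classical in
/-- the signs changed according to `c` at the primes of the scales -/
noncomputable def wc (Qs : ℕ → Finset ℕ) (ω c : ℕ → Bool) (p : ℕ) : Bool :=
  if h : ∃ k, p ∈ Qs k then c (Nat.find h) else ω p

section scales

variable {τ P : ℕ → ℕ} {Qs : ℕ → Finset ℕ}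

lemma tau_mono (hgap : ∀ k, τ k + 2 ≤ τ (k + 1)) {i k : ℕ} (h : i < k) : τ i + 2 ≤ τ k := by
  induction k with
  | zero => omega
  | succ k ih =>
    rcases Nat.lt_succ_iff_lt_or_eq.1 h with h1 | h1
    · have := hgap k
      have := ih h1
      omega
    · subst h1
      exact hgap i

lemma lo_mem (hsc : ∀ k, Scale (τ k) (P k) (Qs k)) {k p : ℕ} (hp : p ∈ Qs k) :
    16 ^ (τ k + 1) < p ∧ p ≤ 16 ^ (τ k + 2) := by
  have h1 := (hsc k).pr p hp
  have h2 := (hsc k).lo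
  have h3 := (hsc k).hi
  omega

lemma idx_unique (hsc : ∀ k, Scale (τ k) (P k) (Qs k)) (hgap : ∀ k, τ k + 2 ≤ τ (k + 1)) {i k p : ℕ}
    (hi : p ∈ Qs i) (hk : p ∈ Qs k) : i = k := by
  have h1 := lo_mem hsc hi
  have h2 := lo_mem hsc hk
  rcases lt_trichotomy i k with h | h | h
  · have h3 := tau_mono hgap h
    have : 16 ^ (τ i + 2) ≤ 16 ^ (τ k + 1) := Nat.pow_le_pow_right (by norm_num) (by omega)
    omega
  · exact h
  · have h3 := tau_mono hgap h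
    have : 16 ^ (τ k + 2) ≤ 16 ^ (τ i + 1) := Nat.pow_le_pow_right (by norm_num) (by omega)
    omega

lemma wc_mem (hsc : ∀ k, Scale (τ k) (P k) (Qs k)) (hgap : ∀ k, τ k + 2 ≤ τ (k + 1)) (ω c : ℕ → Bool)
    {k p : ℕ} (hp : p ∈ Qs k) : wc Qs ω c p = c k := by
  classical
  have h : ∃ k, p ∈ Qs k := ⟨k, hp⟩
  unfold wc
  rw [dif_pos h]
  congr 1
  exact idx_unique hsc hgap (Nat.find_spec h) hp

lemma wc_not (ω c : ℕ → Bool) {p : ℕ} (hp : ∀ k, p ∉ Qs k) : wc Qs ω c p = ω p := by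
  unfold wc
  rw [dif_neg (by push Not; exact hp)]

/-- the signs at the primes below `2 P k` depend only on `c i`, `i ≤ k` -/
lemma wc_dep (hsc : ∀ k, Scale (τ k) (P k) (Qs k)) (hgap : ∀ k, τ k + 2 ≤ τ (k + 1)) (ω c c' : ℕ → Bool)
    (k : ℕ) (hc : ∀ i ≤ k, c i = c' i) {p : ℕ} (hp : p < 2 * P k) : wc Qs ω c p = wc Qs ω c' p := by
  by_cases h : ∃ i, p ∈ Qs i
  · obtain ⟨i, hi⟩ := h
    rw [wc_mem hsc hgap ω c hi, wc_mem hsc hgap ω c' hi]
    refine hc i ?_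
    by_contra hik
    push Not at hik
    have h1 := tau_mono hgap hik
    have h2 := lo_mem hsc hi
    have h3 := (hsc k).hi
    have h4 : 16 ^ (τ k + 3) ≤ 16 ^ (τ i + 1) := Nat.pow_le_pow_right (by norm_num) (by omega)
    have h5 : 16 ^ (τ k + 3) = 16 * 16 ^ (τ k + 2) := by
      rw [pow_succ]
      ring
    have h6 : 0 < 8 ^ τ k := by positivity
    omega
  · push Not at h
    rw [wc_not ω c h, wc_not ω c' h]

/-- the size of the scales -/
lemma size {t P : ℕ} {Q0 : Finset ℕ} (h : Scale t P Q0) (ht : 2 ≤ t) :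
    (16 : ℝ) ^ (t + 1) ≤ P ∧ (P : ℝ) + 8 ^ t ≤ 16 ^ (t + 2) ∧ 4 * (8 : ℝ) ^ t ≤ 16 ^ t ∧
    4 * (8 : ℝ) ^ t ≤ (2 / 3 * (P : ℝ)) ^ (3 / 4 : ℝ) ∧
    (2 / 3 * (P : ℝ)) ^ (3 / 4 : ℝ) ≤ 64 * 8 ^ t := by
  have h1 : (16 : ℝ) ^ (t + 1) ≤ P := by exact_mod_cast h.lo
  have h2 : (P : ℝ) + 8 ^ t ≤ 16 ^ (t + 2) := by exact_mod_cast h.hi
  have h3 : 4 * (8 : ℝ) ^ t ≤ 16 ^ t := by
    have e1 : (16 : ℝ) ^ t = 2 ^ t * 8 ^ t := by rw [← mul_pow]; norm_num
    have e2 : (4 : ℝ) ≤ 2 ^ t := by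
      calc (4 : ℝ) = 2 ^ 2 := by norm_num
        _ ≤ 2 ^ t := pow_le_pow_right₀ (by norm_num) ht
    rw [e1]
    exact mul_le_mul_of_nonneg_right e2 (by positivity)
  have hroot : ∀ n : ℕ, ((16 : ℝ) ^ n) ^ (3 / 4 : ℝ) = 8 ^ n := by
    intro n
    have e1 : (16 : ℝ) ^ n = (2 : ℝ) ^ (4 * n) := by rw [pow_mul]; norm_num
    have e2 : (8 : ℝ) ^ n = (2 : ℝ) ^ (3 * n) := by rw [pow_mul]; norm_num
    rw [e1, e2, ← Real.rpow_natCast, ← Real.rpow_natCast, ← Real.rpow_mul (by norm_num)]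
    congr 1
    push_cast
    ring
  refine ⟨h1, h2, h3, ?_, ?_⟩
  · have hP0 : (0 : ℝ) ≤ P := Nat.cast_nonneg _
    rw [Real.mul_rpow (by norm_num) hP0]
    have e1 : (2 / 3 : ℝ) ≤ (2 / 3 : ℝ) ^ (3 / 4 : ℝ) := by
      calc (2 / 3 : ℝ) = (2 / 3 : ℝ) ^ (1 : ℝ) := (Real.rpow_one _).symm
        _ ≤ (2 / 3 : ℝ) ^ (3 / 4 : ℝ) :=
            Real.rpow_le_rpow_of_exponent_ge (by norm_num) (by norm_num) (by norm_num)
    have e2 : (8 : ℝ) ^ (t + 1) ≤ (P : ℝ) ^ (3 / 4 : ℝ) := by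
      rw [← hroot]
      exact Real.rpow_le_rpow (by positivity) h1 (by norm_num)
    calc 4 * (8 : ℝ) ^ t ≤ 2 / 3 * (8 : ℝ) ^ (t + 1) := by
          rw [pow_succ]
          nlinarith [pow_pos (by norm_num : (0 : ℝ) < 8) t]
      _ ≤ (2 / 3 : ℝ) ^ (3 / 4 : ℝ) * (P : ℝ) ^ (3 / 4 : ℝ) :=
          mul_le_mul e1 e2 (by positivity) (by positivity)
  · calc (2 / 3 * (P : ℝ)) ^ (3 / 4 : ℝ) ≤ ((16 : ℝ) ^ (t + 2)) ^ (3 / 4 : ℝ) := by
          refine Real.rpow_le_rpow (by positivity) ?_ (by norm_num)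
          have : (0 : ℝ) ≤ 8 ^ t := by positivity
          have : (0 : ℝ) ≤ P := Nat.cast_nonneg _
          linarith
      _ = 64 * 8 ^ t := by
          rw [hroot, pow_add]
          ring

/-- at each scale one of the two signs is bad -/
lemma step_ex (hsc : ∀ k, Scale (τ k) (P k) (Qs k)) (hgap : ∀ k, τ k + 2 ≤ τ (k + 1))
    (hlow : ∀ k, k + 2 ≤ τ k) (ω : ℕ → Bool) (k : ℕ) (c : ℕ → Bool) : ∃ b : Bool,
    (8 : ℝ) ^ τ k * ((Qs k).card : ℝ) ^ 2 ≤ ∫ x in (P k : ℝ)..((P k : ℝ) + 8 ^ τ k),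
      Mf (mc (wc Qs ω (Function.update c k b))) x ((2 / 3 * (P k : ℝ)) ^ (3 / 4 : ℝ)) ^ 2 := by
  obtain ⟨s1, s2, s3, s4, s5⟩ := size (hsc k) (by have := hlow k; omega)
  set H := (2 / 3 * (P k : ℝ)) ^ (3 / 4 : ℝ) with hH
  set L : ℝ := (8 : ℝ) ^ τ k with hL
  have hL0 : 0 < L := by positivity
  have hp16 : (16 : ℝ) ^ (τ k + 1) = 16 * 16 ^ τ k := by rw [pow_succ]; ring
  set fp := mc (wc Qs ω (Function.update c k false)) with hfp
  set fm := mc (wc Qs ω (Function.update c k true)) with hfm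
  set M := ((Qs k).card : ℝ) with hM
  have hdiff : ∀ x ∈ Set.Icc (P k : ℝ) ((P k : ℝ) + L), 2 * M ^ 2 ≤ Mf fp x H ^ 2 + Mf fm x H ^ 2 := by
    intro x hx
    have h1 := diff_M fp fm (Qs k) (P k) (8 ^ τ k) H x hx.1 (by push_cast; exact hx.2)
      (fun q hq => ⟨((hsc k).pr q hq).2.1, ((hsc k).pr q hq).2.2⟩)
      (by push_cast; linarith) (by push_cast; linarith) (fun q hq => by
        rw [hfp, mc_prime _ ((hsc k).pr q hq).1, wc_mem hsc hgap _ _ hq, Function.update_self]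
        simp) (fun q hq => by
        rw [hfm, mc_prime _ ((hsc k).pr q hq).1, wc_mem hsc hgap _ _ hq, Function.update_self]
        simp) (fun n hn hnQ => by
        rw [hfp, hfm]
        refine mc_congr _ _ n fun p hp hpn hn0 => ?_
        have hple : p ≤ n := Nat.le_of_dvd (by omega) hpn
        have hpk : p ∉ Qs k := by
          intro hpk
          have h2 := ((hsc k).pr p hpk).2.1
          obtain ⟨r, hr⟩ := hpn
          have hr1 : r = 1 := by
            have hr0 : r ≠ 0 := by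
              rintro rfl
              omega
            by_contra hr1
            have : p * 2 ≤ p * r := Nat.mul_le_mul_left _ (by omega)
            omega
          rw [hr1, mul_one] at hr
          exact hnQ (hr ▸ hpk)
        by_cases hex : ∃ i, p ∈ Qs i
        · obtain ⟨i, hi⟩ := hex
          have hik : i ≠ k := fun h => hpk (h ▸ hi)
          rw [wc_mem hsc hgap _ _ hi, wc_mem hsc hgap _ _ hi, Function.update_of_ne hik,
            Function.update_of_ne hik]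
        · push Not at hex
          rw [wc_not _ _ hex, wc_not _ _ hex])
    rw [← hM] at h1
    nlinarith [sq_nonneg (Mf fp x H + Mf fm x H)]
  have hH0 : 0 ≤ H := by linarith
  have i1 := int_Mf fp H (P k) ((P k : ℝ) + L) hH0 (by linarith) (by linarith)
  have i2 := int_Mf fm H (P k) ((P k : ℝ) + L) hH0 (by linarith) (by linarith)
  have h2 : L * (2 * M ^ 2) ≤ (∫ x in (P k : ℝ)..((P k : ℝ) + L), Mf fp x H ^ 2) +
      ∫ x in (P k : ℝ)..((P k : ℝ) + L), Mf fm x H ^ 2 := by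
    rw [← intervalIntegral.integral_add i1 i2]
    have h3 := intervalIntegral.integral_mono_on (by linarith : (P k : ℝ) ≤ (P k : ℝ) + L)
      (intervalIntegrable_const (c := 2 * M ^ 2)) (i1.add i2) hdiff
    rw [intervalIntegral.integral_const, smul_eq_mul] at h3
    have e1 : (P k : ℝ) + L - P k = L := by ring
    rw [e1] at h3
    exact h3
  by_contra hc
  push Not at hc
  have c1 := hc false
  have c2 := hc true
  linarith

/-- **The law can be destroyed.** -/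
theorem destroy (hsc : ∀ k, Scale (τ k) (P k) (Qs k)) (hgap : ∀ k, τ k + 2 ≤ τ (k + 1))
    (hlow : ∀ k, k + 2 ≤ τ k) (ω : ℕ → Bool) : ∃ ω' : ℕ → Bool,
    (∀ p, (∀ k, p ∉ Qs k) → ω' p = ω p) ∧ ∀ k : ℕ,
    (3 / 32768 : ℝ) * (k : ℝ) ^ 2 * (2 / 3 * (P k : ℝ)) ^ (3 / 4 : ℝ) ≤
      1 / (2 / 3 * (P k : ℝ)) * ∫ x in (2 / 3 * (P k : ℝ))..(2 * (2 / 3 * (P k : ℝ))),
        Mf (mc ω') x ((2 / 3 * (P k : ℝ)) ^ (3 / 4 : ℝ)) ^ 2 := by
  obtain ⟨c, hc⟩ := exists_seq (fun k c => (8 : ℝ) ^ τ k * ((Qs k).card : ℝ) ^ 2 ≤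
      ∫ x in (P k : ℝ)..((P k : ℝ) + 8 ^ τ k),
        Mf (mc (wc Qs ω c)) x ((2 / 3 * (P k : ℝ)) ^ (3 / 4 : ℝ)) ^ 2)
    (fun k c c' hcc hB => by
      obtain ⟨s1, s2, s3, s4, s5⟩ := size (hsc k) (by have := hlow k; omega)
      have hp16 : (16 : ℝ) ^ (τ k + 1) = 16 * 16 ^ τ k := by rw [pow_succ]; ring
      have hL0 : (0 : ℝ) < 8 ^ τ k := by positivity
      refine hB.trans (le_of_eq ?_)
      refine intervalIntegral.integral_congr fun x hx => ?_
      rw [Set.uIcc_of_le (by linarith)] at hx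
      rw [Mf_congr (mc (wc Qs ω c)) (mc (wc Qs ω c')) x _ (2 * P k) (by linarith [hx.2])
        fun n hn => mc_congr _ _ n fun p hp hpn hn0 => wc_dep hsc hgap ω c c' k hcc ?_]
      have hn' : n < 2 * P k := by exact_mod_cast hn
      exact lt_of_le_of_lt (Nat.le_of_dvd (by omega) hpn) hn')
    (fun k c => step_ex hsc hgap hlow ω k c)
  refine ⟨wc Qs ω c, fun p hp => wc_not ω c hp, fun k => ?_⟩
  obtain ⟨s1, s2, s3, s4, s5⟩ := size (hsc k) (by have := hlow k; omega)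
  have hp16 : (16 : ℝ) ^ (τ k + 1) = 16 * 16 ^ τ k := by rw [pow_succ]; ring
  have hp16' : (16 : ℝ) ^ (τ k + 2) = 256 * 16 ^ τ k := by rw [pow_add]; ring
  set H := (2 / 3 * (P k : ℝ)) ^ (3 / 4 : ℝ) with hH
  set L : ℝ := (8 : ℝ) ^ τ k with hL
  have hL0 : 0 < L := by positivity
  have hH0 : 0 ≤ H := by linarith
  have hP0 : (0 : ℝ) < P k := by
    have : (0 : ℝ) < 16 ^ τ k := by positivity
    linarith
  have h1 : ∫ x in (P k : ℝ)..((P k : ℝ) + L), Mf (mc (wc Qs ω c)) x H ^ 2 ≤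
      ∫ x in (2 / 3 * (P k : ℝ))..(2 * (2 / 3 * (P k : ℝ))), Mf (mc (wc Qs ω c)) x H ^ 2 := by
    refine intervalIntegral.integral_mono_interval (by linarith) (by linarith) (by linarith)
      (Eventually.of_forall fun x => sq_nonneg _) ?_
    exact int_Mf _ H _ _ hH0 (by linarith) (by linarith)
  have h2 := (hc k).trans h1
  have h3 : ((Qs k).card : ℝ) = τ k * 4 ^ τ k := by
    rw [(hsc k).cd]
    push_cast
    rfl
  rw [h3] at h2
  have hkτ : (k : ℝ) ≤ τ k := by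
    have := hlow k
    exact_mod_cast (by omega : k ≤ τ k)
  have h416 : ((4 : ℝ) ^ τ k) ^ 2 = 16 ^ τ k := by
    rw [← pow_mul, mul_comm, pow_mul]
    norm_num
  calc (3 / 32768 : ℝ) * (k : ℝ) ^ 2 * H ≤ (3 / 32768 : ℝ) * (τ k : ℝ) ^ 2 * (64 * L) := by
        refine mul_le_mul (mul_le_mul_of_nonneg_left (pow_le_pow_left₀ (by positivity) hkτ 2)
          (by norm_num)) s5 hH0 (by positivity)
    _ = (3 / 512) * (τ k : ℝ) ^ 2 * L := by ring
    _ ≤ 1 / (2 / 3 * (P k : ℝ)) * (L * (τ k * 4 ^ τ k) ^ 2) := by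
        rw [mul_pow, h416, one_div, inv_mul_eq_div, le_div_iff₀ (by positivity)]
        have h5 : (P k : ℝ) ≤ 256 * 16 ^ τ k := by linarith
        calc (3 / 512) * (τ k : ℝ) ^ 2 * L * (2 / 3 * (P k : ℝ))
            ≤ (3 / 512) * (τ k : ℝ) ^ 2 * L * (2 / 3 * (256 * 16 ^ τ k)) :=
              mul_le_mul_of_nonneg_left (mul_le_mul_of_nonneg_left h5 (by norm_num)) (by positivity)
          _ = L * ((τ k : ℝ) ^ 2 * 16 ^ τ k) := by ring
    _ ≤ _ := mul_le_mul_of_nonneg_left h2 (by positivity)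

end scales

end Pool.Agent.H611.ST
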