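import Pool.Agent.H611.ST.Alg

set_option autoImplicit false

/-!
# Bilinear forms in the windows and the splitting at `D`
-/

namespace Pool.Agent.H611.ST

open Finset Filter Topology MeasureTheory Pool.Agent.Q163.RP Pool.Agent.Q163.RX Pool.Agent.Q163.GC
  Pool.Agent.Y293.SF

/-- the off-diagonal part of a bilinear form -/
noncomputable def OL (f g : ℕ → ℝ) (N h : ℕ) : ℝ :=
  ∑ x ∈ range N, W f x h * W g x h - ∑ x ∈ range N, ∑ j ∈ range h, f (x + j + 1) * g (x + j + 1)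

lemma W_sum {ι : Type*} (S : Finset ι) (g : ι → ℝ) (u : ι → ℕ → ℝ) (x h : ℕ) :
    W (fun n => ∑ d ∈ S, g d * u d n) x h = ∑ d ∈ S, g d * W (u d) x h := by
  unfold W
  rw [sum_comm]
  exact sum_congr rfl fun d _ => (mul_sum _ _ _).symm

lemma OL_polar (f g : ℕ → ℝ) (N h : ℕ) : OL f g N h =
    (BB (fun n => (f n + g n) / 2) N h - DD (fun n => (f n + g n) / 2) N h) -
    (BB (fun n => (f n - g n) / 2) N h - DD (fun n => (f n - g n) / 2) N h) := by
  unfold OL BB DD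
  have h1 : ∀ x, W (fun n => (f n + g n) / 2) x h = (W f x h + W g x h) / 2 := fun x => by
    unfold W
    rw [← sum_add_distrib, sum_div]
  have h2 : ∀ x, W (fun n => (f n - g n) / 2) x h = (W f x h - W g x h) / 2 := fun x => by
    unfold W
    rw [← sum_sub_distrib, sum_div]
  simp only [h1, h2]
  rw [← sum_sub_distrib, ← sum_sub_distrib, ← sum_sub_distrib, ← sum_sub_distrib]
  refine sum_congr rfl fun x _ => ?_
  have h3 : ∑ j ∈ range h, f (x + j + 1) * g (x + j + 1) =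
      ∑ j ∈ range h, ((f (x + j + 1) + g (x + j + 1)) / 2) ^ 2 -
      ∑ j ∈ range h, ((f (x + j + 1) - g (x + j + 1)) / 2) ^ 2 := by
    rw [← sum_sub_distrib]
    refine sum_congr rfl fun j _ => ?_
    ring
  rw [h3]
  ring

lemma BB_lin {ι : Type*} (S : Finset ι) (g : ι → ℝ) (u : ι → ℕ → ℝ) (N h : ℕ) :
    BB (fun n => ∑ d ∈ S, g d * u d n) N h - DD (fun n => ∑ d ∈ S, g d * u d n) N h =
      ∑ d ∈ S, ∑ d' ∈ S, g d * g d' * OL (u d) (u d') N h := by
  unfold BB DD OL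
  simp only [W_sum]
  have h1 : ∀ v : ι → ℝ, (∑ d ∈ S, g d * v d) ^ 2 =
      ∑ d ∈ S, ∑ d' ∈ S, g d * g d' * (v d * v d') := by
    intro v
    rw [sq, sum_mul_sum]
    refine sum_congr rfl fun d _ => sum_congr rfl fun d' _ => ?_
    ring
  simp only [h1]
  have e1 : ∑ x ∈ range N, ∑ d ∈ S, ∑ d' ∈ S, g d * g d' * (W (u d) x h * W (u d') x h) =
      ∑ d ∈ S, ∑ d' ∈ S, g d * g d' * ∑ x ∈ range N, W (u d) x h * W (u d') x h := by
    rw [sum_comm]
    refine sum_congr rfl fun d _ => ?_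
    rw [sum_comm]
    refine sum_congr rfl fun d' _ => ?_
    rw [mul_sum]
  have e2 : ∑ x ∈ range N, ∑ j ∈ range h, ∑ d ∈ S, ∑ d' ∈ S,
      g d * g d' * (u d (x + j + 1) * u d' (x + j + 1)) =
      ∑ d ∈ S, ∑ d' ∈ S, g d * g d' * ∑ x ∈ range N, ∑ j ∈ range h,
        u d (x + j + 1) * u d' (x + j + 1) := by
    have e3 : ∀ x, ∑ j ∈ range h, ∑ d ∈ S, ∑ d' ∈ S,
        g d * g d' * (u d (x + j + 1) * u d' (x + j + 1)) =
        ∑ d ∈ S, ∑ d' ∈ S, g d * g d' * ∑ j ∈ range h, u d (x + j + 1) * u d' (x + j + 1) := by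
      intro x
      rw [sum_comm]
      refine sum_congr rfl fun d _ => ?_
      rw [sum_comm]
      refine sum_congr rfl fun d' _ => ?_
      rw [mul_sum]
    simp only [e3]
    rw [sum_comm]
    refine sum_congr rfl fun d _ => ?_
    rw [sum_comm]
    refine sum_congr rfl fun d' _ => ?_
    rw [mul_sum]
  rw [e1, e2, ← sum_sub_distrib]
  refine sum_congr rfl fun d _ => ?_
  rw [← sum_sub_distrib]
  refine sum_congr rfl fun d' _ => ?_
  rw [mul_sub]

/-- Cauchy-Schwarz with weights -/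
lemma cs {ι : Type*} (S : Finset ι) (g w e v : ι → ℝ) (hg : ∀ d ∈ S, |g d| ≤ w d)
    (he : ∀ d ∈ S, 0 < e d) :
    (∑ d ∈ S, g d * v d) ^ 2 ≤ (∑ d ∈ S, w d * e d) * ∑ d ∈ S, w d * (e d)⁻¹ * v d ^ 2 := by
  have hw : ∀ d ∈ S, 0 ≤ w d := fun d hd => (abs_nonneg _).trans (hg d hd)
  refine sum_sq_le_sum_mul_sum_of_sq_le_mul S (fun d hd => mul_nonneg (hw d hd) (he d hd).le)
    (fun d hd => mul_nonneg (mul_nonneg (hw d hd) (inv_nonneg.2 (he d hd).le)) (sq_nonneg _))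
    fun d hd => ?_
  have h1 : g d ^ 2 ≤ w d ^ 2 := by
    rw [← sq_abs]
    exact pow_le_pow_left₀ (abs_nonneg _) (hg d hd) 2
  have h2 : w d * e d * (w d * (e d)⁻¹ * v d ^ 2) = w d ^ 2 * v d ^ 2 := by
    have := (he d hd).ne'
    field_simp
  rw [h2, mul_pow]
  exact mul_le_mul_of_nonneg_right h1 (sq_nonneg _)

lemma BB_cs {ι : Type*} (S : Finset ι) (g w e : ι → ℝ) (u : ι → ℕ → ℝ)
    (hg : ∀ d ∈ S, |g d| ≤ w d) (he : ∀ d ∈ S, 0 < e d) (N h : ℕ) :
    BB (fun n => ∑ d ∈ S, g d * u d n) N h ≤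
      (∑ d ∈ S, w d * e d) * ∑ d ∈ S, w d * (e d)⁻¹ * BB (u d) N h := by
  unfold BB
  simp only [W_sum]
  refine (sum_le_sum fun x _ => cs S g w e (fun d => W (u d) x h) hg he).trans (le_of_eq ?_)
  rw [← mul_sum]
  congr 1
  rw [sum_comm]
  exact sum_congr rfl fun d _ => (mul_sum _ _ _).symm

lemma DD_cs {ι : Type*} (S : Finset ι) (g w e : ι → ℝ) (u : ι → ℕ → ℝ)
    (hg : ∀ d ∈ S, |g d| ≤ w d) (he : ∀ d ∈ S, 0 < e d) (N h : ℕ) :
    DD (fun n => ∑ d ∈ S, g d * u d n) N h ≤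
      (∑ d ∈ S, w d * e d) * ∑ d ∈ S, w d * (e d)⁻¹ * DD (u d) N h := by
  unfold DD
  refine (sum_le_sum fun x _ => sum_le_sum fun j _ =>
    cs S g w e (fun d => u d (x + j + 1)) hg he).trans (le_of_eq ?_)
  simp only [← mul_sum]
  congr 1
  have e3 : ∀ x, ∑ j ∈ range h, ∑ d ∈ S, w d * (e d)⁻¹ * u d (x + j + 1) ^ 2 =
      ∑ d ∈ S, w d * (e d)⁻¹ * ∑ j ∈ range h, u d (x + j + 1) ^ 2 := by
    intro x
    rw [sum_comm]
    exact sum_congr rfl fun d _ => (mul_sum _ _ _).symm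
  simp only [e3]
  rw [sum_comm]
  exact sum_congr rfl fun d _ => (mul_sum _ _ _).symm

/-- multiples of `d` in a window -/
lemma cnt (d N c : ℕ) (hd : 1 ≤ d) :
    ((range N).filter fun x => d ∣ x + c + 1).card ≤ N / d + 1 := by
  have h1 : ((range N).filter fun x => d ∣ x + c + 1).card + c / d = (N + c) / d := by
    rw [← Nat.Ioc_filter_dvd_card_eq_div c d, ← Nat.Ioc_filter_dvd_card_eq_div (N + c) d]
    have h2 : ((range N).filter fun x => d ∣ x + c + 1).card =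
        ((Ioc c (N + c)).filter fun x => d ∣ x).card := by
      refine card_bij (fun x _ => x + c + 1) ?_ ?_ ?_
      · intro x hx
        rw [mem_filter, mem_range] at hx
        rw [mem_filter, mem_Ioc]
        exact ⟨⟨by omega, by omega⟩, hx.2⟩
      · intro x _ y _ hxy
        omega
      · intro y hy
        rw [mem_filter, mem_Ioc] at hy
        refine ⟨y - c - 1, ?_, by omega⟩
        rw [mem_filter, mem_range]
        refine ⟨by omega, ?_⟩
        rw [show y - c - 1 + c + 1 = y by omega]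
        exact hy.2
    rw [h2, ← card_union_of_disjoint]
    · congr 1
      ext y
      simp only [mem_union, mem_filter, mem_Ioc]
      constructor
      · rintro (h | h)
        · exact ⟨⟨by omega, by omega⟩, h.2⟩
        · exact ⟨⟨by omega, by omega⟩, h.2⟩
      · intro h
        rcases le_or_gt y c with h3 | h3
        · exact Or.inr ⟨⟨by omega, h3⟩, h.2⟩
        · exact Or.inl ⟨⟨h3, by omega⟩, h.2⟩
    · rw [disjoint_left]
      intro y hy hy'
      rw [mem_filter, mem_Ioc] at hy hy'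
      omega
  have h3 : (N + c) / d ≤ N / d + c / d + 1 := by
    rw [Nat.add_div (by omega : 0 < d)]
    split_ifs <;> omega
  omega

lemma DD_ad (d N h : ℕ) (hd : 1 ≤ d) (hdN : d ≤ 2 * N) : DD (ad d) N h ≤ 3 * (h * N) / d := by
  unfold DD
  rw [sum_comm]
  have hd0 : (0 : ℝ) < d := by exact_mod_cast hd
  have h1 : ∀ j ∈ range h, ∑ x ∈ range N, ad d (x + j + 1) ^ 2 ≤ 3 * (N : ℝ) / d := by
    intro j _
    have h2 : ∀ x ∈ range N, ad d (x + j + 1) ^ 2 ≤ if d ∣ x + j + 1 then (1 : ℝ) else 0 := by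
      intro x _
      have h3 := abs_ad d (x + j + 1)
      split_ifs with h4
      · rw [← sq_abs]
        exact pow_le_one₀ (abs_nonneg _) h3
      · unfold ad
        rw [if_neg h4]
        norm_num
    refine (sum_le_sum h2).trans ?_
    rw [← sum_filter, sum_const, nsmul_eq_mul, mul_one]
    have h5 := cnt d N j hd
    have h6 : (((range N).filter fun x => d ∣ x + j + 1).card : ℝ) ≤ ((N / d : ℕ) : ℝ) + 1 := by
      exact_mod_cast h5
    have h7 : ((N / d : ℕ) : ℝ) ≤ (N : ℝ) / d := Nat.cast_div_le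
    have h8 : (1 : ℝ) ≤ 2 * N / d := by
      rw [le_div_iff₀ hd0, one_mul]
      exact_mod_cast hdN
    have h9 : 3 * (N : ℝ) / d = N / d + 2 * N / d := by ring
    linarith
  refine (sum_le_sum h1).trans (le_of_eq ?_)
  rw [sum_const, card_range, nsmul_eq_mul]
  ring

/-- the first moment -/
lemma mean_BB (a : ℕ → ℝ) (ha : ∀ n, |a n| ≤ 1) (ha0 : ∀ n, a n ≠ 0 → Squarefree n) (N h : ℕ) :
    Integrable (fun ω => BB (fun n => a n * ch ω n) N h) cm ∧
    ∫ ω, BB (fun n => a n * ch ω n) N h ∂cm = DD a N h := by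
  have hb : ∀ ω, |BB (fun n => a n * ch ω n) N h| ≤ N * (h : ℝ) ^ 2 := by
    intro ω
    unfold BB
    rw [abs_of_nonneg (sum_nonneg fun x _ => sq_nonneg _)]
    refine (sum_le_sum fun x _ => ?_).trans (le_of_eq (by
      rw [sum_const, card_range, nsmul_eq_mul] : ∑ _x ∈ range N, (h : ℝ) ^ 2 = N * (h : ℝ) ^ 2))
    rw [← sq_abs]
    exact pow_le_pow_left₀ (abs_nonneg _) (abs_W_le _ (abs_f a ha ω) x h) 2
  have hint : Integrable (fun ω => BB (fun n => a n * ch ω n) N h) cm :=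
    Integrable.of_bound (meas_BB a N h).aestronglyMeasurable (N * (h : ℝ) ^ 2)
      (Filter.Eventually.of_forall fun ω => by rw [Real.norm_eq_abs]; exact hb ω)
  refine ⟨hint, ?_⟩
  have h1 : ∀ ω, BB (fun n => a n * ch ω n) N h = DD a N h + ∑ t ∈ JJ N h,
      a (t.1 + t.2.1 + 1) * a (t.1 + t.2.2 + 1) * ch ω ((t.1 + t.2.1 + 1) * (t.1 + t.2.2 + 1)) := by
    intro ω
    have h2 := BB_sub (fun n => a n * ch ω n) N h
    rw [DD_eq] at h2
    have h3 : ∑ t ∈ JJ N h, (fun n => a n * ch ω n) (t.1 + t.2.1 + 1) *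
        (fun n => a n * ch ω n) (t.1 + t.2.2 + 1) = ∑ t ∈ JJ N h,
        a (t.1 + t.2.1 + 1) * a (t.1 + t.2.2 + 1) * ch ω ((t.1 + t.2.1 + 1) * (t.1 + t.2.2 + 1)) := by
      refine sum_congr rfl fun t _ => ?_
      rw [ch_mul ω (Nat.succ_ne_zero _) (Nat.succ_ne_zero _)]
      ring
    rw [← h3, ← h2]
    ring
  simp_rw [h1]
  rw [integral_add (integrable_const _) (integrable_finsetSum _ fun t _ => (int_ch _).const_mul _),
    integral_finsetSum _ fun t _ => (int_ch _).const_mul _]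
  simp_rw [integral_const_mul]
  rw [integral_const, probReal_univ, one_smul]
  have h4 : ∑ t ∈ JJ N h, a (t.1 + t.2.1 + 1) * a (t.1 + t.2.2 + 1) *
      ∫ ω, ch ω ((t.1 + t.2.1 + 1) * (t.1 + t.2.2 + 1)) ∂cm = 0 := by
    refine sum_eq_zero fun t ht => ?_
    by_cases h5 : a (t.1 + t.2.1 + 1) = 0
    · rw [h5, zero_mul, zero_mul]
    by_cases h6 : a (t.1 + t.2.2 + 1) = 0
    · rw [h6, mul_zero, zero_mul]
    rw [mean_ch (mul_ne_zero (Nat.succ_ne_zero _) (Nat.succ_ne_zero _)), mul_zero]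
    intro h7
    have h8 := sqf_eq_of_sq (ha0 _ h5) (ha0 _ h6) h7
    have h9 := (mem_JJ.1 ht).2.2.2
    omega
  rw [h4, add_zero]

end Pool.Agent.H611.ST
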