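import Pool.Agent.H611.ST.Bil

set_option autoImplicit false

/-!
# The deterministic splitting
-/

namespace Pool.Agent.H611.ST

open Finset Filter Topology MeasureTheory Pool.Agent.Q163.RP Pool.Agent.Q163.RX Pool.Agent.Q163.GC
  Pool.Agent.Y293.SF

lemma congr_BD (f g : ℕ → ℝ) (N h : ℕ) (hfg : ∀ n, 1 ≤ n → n ≤ N + h → f n = g n) :
    BB f N h = BB g N h ∧ DD f N h = DD g N h := by
  constructor
  · unfold BB W
    refine sum_congr rfl fun x hx => ?_
    congr 1
    refine sum_congr rfl fun j hj => ?_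
    rw [mem_range] at hx hj
    exact hfg _ (by omega) (by omega)
  · unfold DD
    refine sum_congr rfl fun x hx => sum_congr rfl fun j hj => ?_
    rw [mem_range] at hx hj
    rw [hfg _ (by omega) (by omega)]

/-- the inverse square root -/
noncomputable def ee (d : ℕ) : ℝ := (d : ℝ) ^ (-(1 / 2 : ℝ))

lemma ee_pos {d : ℕ} (hd : 1 ≤ d) : 0 < ee d := by
  unfold ee
  have : (0 : ℝ) < d := by exact_mod_cast hd
  positivity

lemma ee_inv_div {d : ℕ} (hd : 1 ≤ d) : (ee d)⁻¹ / d = ee d := by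
  unfold ee
  have h0 : (0 : ℝ) < d := by exact_mod_cast hd
  rw [← Real.rpow_neg h0.le, neg_neg, div_eq_mul_inv, ← Real.rpow_neg_one, ← Real.rpow_add h0]
  norm_num

lemma sq_close (f g : ℕ → ℝ) (N h : ℕ) (t : ℝ) (ht : 0 < t) :
    |BB (fun n => f n + g n) N h - BB f N h| ≤ t * BB f N h + (1 + 1 / t) * BB g N h ∧
    |DD (fun n => f n + g n) N h - DD f N h| ≤ t * DD f N h + (1 + 1 / t) * DD g N h := by
  constructor
  · unfold BB
    rw [← sum_sub_distrib, mul_sum, mul_sum, ← sum_add_distrib]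
    refine (abs_sum_le_sum_abs _ _).trans (sum_le_sum fun x _ => ?_)
    have h1 : W (fun n => f n + g n) x h = W f x h + W g x h := by
      unfold W
      exact sum_add_distrib
    rw [h1]
    exact sq_split _ _ t ht
  · unfold DD
    rw [← sum_sub_distrib, mul_sum, mul_sum, ← sum_add_distrib]
    refine (abs_sum_le_sum_abs _ _).trans (sum_le_sum fun x _ => ?_)
    rw [← sum_sub_distrib, mul_sum, mul_sum, ← sum_add_distrib]
    refine (abs_sum_le_sum_abs _ _).trans (sum_le_sum fun j _ => ?_)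
    exact sq_split _ _ t ht

/-- the deterministic bound for the modified function -/
theorem det (Q : Set ℕ) (ω ω' : ℕ → Bool) (hQ : ∀ p : ℕ, p.Prime → ω' p ≠ ω p → p ∈ Q)
    (N h D : ℕ) (hN : 1 ≤ N) (hhN : h ≤ N) (hDN : D ≤ N) (η S' δ : ℝ) (hη : 0 < η)
    (hη1 : η ≤ 1) (hS : ∑ d ∈ Ioc D (N + h), ww Q d * ee d ≤ S') (hS2 : 3 * S' ^ 2 ≤ η ^ 2)
    (hZ : S' * ∑ d ∈ Ioc D (N + h), ww Q d * (ee d)⁻¹ * BB (fun n => ad d n * ch ω n) N h ≤
      η ^ 2 * (h * N))
    (hδ : (D : ℝ) ^ 4 * δ ≤ h * N)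
    (hO : ∀ d ∈ Ioc 0 D, ∀ d' ∈ Ioc 0 D,
      |OL (fun n => ad d n * ch ω n) (fun n => ad d' n * ch ω n) N h| ≤ δ) :
    |BB (fun n => mu n * ch ω' n) N h - DD (fun n => mu n * ch ω' n) N h| ≤
      (D : ℝ) ^ 4 * δ + 13 * η * (h * N) := by
  set g : ℕ → ℝ := fun d => if Squarefree d then hh ω ω' d else 0 with hg
  have hgw : ∀ d, |g d| ≤ ww Q d := fun d => abs_hh_le Q ω ω' hQ d
  set u : ℕ → ℕ → ℝ := fun d n => ad d n * ch ω n with hu
  set f1 : ℕ → ℝ := fun n => ∑ d ∈ Ioc 0 D, g d * u d n with hf1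
  set f2 : ℕ → ℝ := fun n => ∑ d ∈ Ioc D (N + h), g d * u d n with hf2
  set X : ℝ := h * N with hX
  have hX0 : 0 ≤ X := by positivity
  have hsum : ∀ n, 1 ≤ n → n ≤ N + h → mu n * ch ω' n = f1 n + f2 n := by
    intro n hn hn2
    rw [expand_mu ω ω' n (N + h) hn hn2, hf1, hf2]
    have h1 : Icc 1 (N + h) = Ioc 0 (N + h) := by
      ext y
      simp only [mem_Icc, mem_Ioc]
      omega
    rw [h1, ← sum_Ioc_consecutive (fun d => g d * u d n) (Nat.zero_le D) (by omega)]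
  obtain ⟨c1, c2⟩ := congr_BD _ _ N h hsum
  -- the main part
  have m1 : |BB f1 N h - DD f1 N h| ≤ (D : ℝ) ^ 4 * δ := by
    rw [hf1, BB_lin]
    have hg1 : ∑ d ∈ Ioc 0 D, |g d| ≤ (D : ℝ) ^ 2 := by
      calc ∑ d ∈ Ioc 0 D, |g d| ≤ ∑ _d ∈ Ioc 0 D, (D : ℝ) := by
            refine sum_le_sum fun d hd => ?_
            refine (hgw d).trans ((ww_le Q d).trans ?_)
            exact_mod_cast (mem_Ioc.1 hd).2
        _ = (D : ℝ) ^ 2 := by
            rw [sum_const, Nat.card_Ioc, nsmul_eq_mul, Nat.sub_zero]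
            ring
    refine (abs_sum_le_sum_abs _ _).trans ?_
    have h2 : ∀ d ∈ Ioc 0 D, |∑ d' ∈ Ioc 0 D, g d * g d' * OL (u d) (u d') N h| ≤
        |g d| * ((∑ d' ∈ Ioc 0 D, |g d'|) * δ) := by
      intro d hd
      refine (abs_sum_le_sum_abs _ _).trans ?_
      rw [sum_mul, mul_sum]
      refine sum_le_sum fun d' hd' => ?_
      rw [abs_mul, abs_mul, mul_assoc]
      exact mul_le_mul_of_nonneg_left (mul_le_mul_of_nonneg_left (hO d hd d' hd') (abs_nonneg _))
        (abs_nonneg _)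
    refine (sum_le_sum h2).trans ?_
    rw [← sum_mul]
    rcases Nat.eq_zero_or_pos D with h0 | h0
    · subst h0
      simp
    have hδ0 : 0 ≤ δ := (abs_nonneg _).trans (hO 1 (by rw [mem_Ioc]; omega) 1 (by rw [mem_Ioc]; omega))
    calc (∑ d ∈ Ioc 0 D, |g d|) * ((∑ d' ∈ Ioc 0 D, |g d'|) * δ)
        ≤ (D : ℝ) ^ 2 * ((D : ℝ) ^ 2 * δ) :=
          mul_le_mul hg1 (mul_le_mul_of_nonneg_right hg1 hδ0)
            (mul_nonneg (sum_nonneg fun _ _ => abs_nonneg _) hδ0) (by positivity)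
      _ = (D : ℝ) ^ 4 * δ := by ring
  -- the tail
  have he : ∀ d ∈ Ioc D (N + h), 0 < ee d := fun d hd => ee_pos (by
    have := (mem_Ioc.1 hd).1
    omega)
  have hw0 : ∀ d, 0 ≤ ww Q d := ww_nonneg Q
  have hS0 : 0 ≤ ∑ d ∈ Ioc D (N + h), ww Q d * ee d :=
    sum_nonneg fun d hd => mul_nonneg (hw0 d) (he d hd).le
  have m2 : BB f2 N h ≤ η ^ 2 * X := by
    refine (BB_cs (Ioc D (N + h)) g (ww Q) ee u (fun d _ => hgw d) he N h).trans
      (le_trans ?_ hZ)
    refine mul_le_mul_of_nonneg_right hS ?_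
    refine sum_nonneg fun d hd => mul_nonneg (mul_nonneg (hw0 d) (inv_nonneg.2 (he d hd).le)) ?_
    exact sum_nonneg fun _ _ => sq_nonneg _
  have m3 : DD f2 N h ≤ η ^ 2 * X := by
    refine (DD_cs (Ioc D (N + h)) g (ww Q) ee u (fun d _ => hgw d) he N h).trans ?_
    have h3 : ∑ d ∈ Ioc D (N + h), ww Q d * (ee d)⁻¹ * DD (u d) N h ≤ 3 * X * S' := by
      calc ∑ d ∈ Ioc D (N + h), ww Q d * (ee d)⁻¹ * DD (u d) N h
          ≤ ∑ d ∈ Ioc D (N + h), 3 * X * (ww Q d * ee d) := by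
            refine sum_le_sum fun d hd => ?_
            rw [mem_Ioc] at hd
            have h4 : DD (u d) N h ≤ 3 * X / d := by
              rw [hu]
              simp only
              rw [DD_eq]
              exact DD_ad d N h (by omega) (by omega)
            have hd1 : 1 ≤ d := by omega
            calc ww Q d * (ee d)⁻¹ * DD (u d) N h ≤ ww Q d * (ee d)⁻¹ * (3 * X / d) :=
                  mul_le_mul_of_nonneg_left h4 (mul_nonneg (hw0 d) (inv_nonneg.2 (ee_pos hd1).le))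
              _ = 3 * X * (ww Q d * ((ee d)⁻¹ / d)) := by ring
              _ = 3 * X * (ww Q d * ee d) := by rw [ee_inv_div hd1]
        _ = 3 * X * ∑ d ∈ Ioc D (N + h), ww Q d * ee d := by rw [mul_sum]
        _ ≤ 3 * X * S' := mul_le_mul_of_nonneg_left hS (by positivity)
    have hSp : 0 ≤ S' := hS0.trans hS
    calc (∑ d ∈ Ioc D (N + h), ww Q d * ee d) *
        ∑ d ∈ Ioc D (N + h), ww Q d * (ee d)⁻¹ * DD (u d) N h ≤ S' * (3 * X * S') := by
          refine mul_le_mul hS h3 ?_ hSp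
          refine sum_nonneg fun d hd => mul_nonneg (mul_nonneg (hw0 d) (inv_nonneg.2 (he d hd).le)) ?_
          exact DD_nonneg _ _ _
      _ = (3 * S' ^ 2) * X := by ring
      _ ≤ η ^ 2 * X := mul_le_mul_of_nonneg_right hS2 hX0
  -- the diagonal of the modified function
  have m4 : DD (fun n => mu n * ch ω' n) N h ≤ X := by
    refine (DD_le (fun n => ?_) N h).trans le_rfl
    exact abs_f mu abs_mu_le ω' n
  have hη2 : η ^ 2 ≤ η := by nlinarith
  have m5 : DD f1 N h ≤ 4 * X := by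
    have h1 : DD f1 N h ≤ 2 * DD (fun n => f1 n + f2 n) N h + 2 * DD f2 N h := by
      unfold DD
      rw [mul_sum, mul_sum, ← sum_add_distrib]
      refine sum_le_sum fun x _ => ?_
      rw [mul_sum, mul_sum, ← sum_add_distrib]
      refine sum_le_sum fun j _ => ?_
      nlinarith [sq_nonneg (f1 (x + j + 1) + 2 * f2 (x + j + 1))]
    rw [← c2] at h1
    nlinarith
  have m6 : BB f1 N h ≤ 5 * X := by
    have := (abs_le.1 m1).2
    linarith
  obtain ⟨k1, k2⟩ := sq_close f1 f2 N h η hη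
  rw [← c1] at k1
  rw [← c2] at k2
  have e1 : (1 + 1 / η) * (η ^ 2 * X) = (η ^ 2 + η) * X := by
    field_simp
  have l0 : 0 ≤ 1 + 1 / η := by positivity
  have l1 : |BB (fun n => mu n * ch ω' n) N h - BB f1 N h| ≤ 7 * η * X := by
    refine k1.trans ?_
    have h1 := mul_le_mul_of_nonneg_left m6 hη.le
    have h2 := mul_le_mul_of_nonneg_left m2 l0
    rw [e1] at h2
    have h3 := mul_le_mul_of_nonneg_right hη2 hX0
    nlinarith
  have l2 : |DD (fun n => mu n * ch ω' n) N h - DD f1 N h| ≤ 6 * η * X := by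
    refine k2.trans ?_
    have h1 := mul_le_mul_of_nonneg_left m5 hη.le
    have h2 := mul_le_mul_of_nonneg_left m3 l0
    rw [e1] at h2
    have h3 := mul_le_mul_of_nonneg_right hη2 hX0
    nlinarith
  have e2 : BB (fun n => mu n * ch ω' n) N h - DD (fun n => mu n * ch ω' n) N h =
      (BB (fun n => mu n * ch ω' n) N h - BB f1 N h) + (BB f1 N h - DD f1 N h) +
      (DD f1 N h - DD (fun n => mu n * ch ω' n) N h) := by ring
  rw [e2]
  refine (abs_add_three _ _ _).trans ?_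
  rw [abs_sub_comm (DD f1 N h)]
  linarith

end Pool.Agent.H611.ST
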