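import Pool.Agent.H611.ST.Bad

set_option autoImplicit false

/-!
# The changed primes are thin
-/

namespace Pool.Agent.H611.ST

open Finset Filter Topology

lemma four_pow (s : ℝ) (t : ℕ) : (t : ℝ) * 4 ^ t * ((16 : ℝ) ^ t) ^ (-s) =
    (t : ℝ) ^ 1 * ((4 : ℝ) ^ (1 - 2 * s)) ^ t := by
  rw [pow_one, mul_assoc]
  congr 1
  have e1 : (16 : ℝ) ^ t = (4 : ℝ) ^ (2 * (t : ℝ)) := by
    rw [Real.rpow_mul (by norm_num), Real.rpow_natCast]
    norm_num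
  have e2 : (4 : ℝ) ^ t = (4 : ℝ) ^ (t : ℝ) := (Real.rpow_natCast _ _).symm
  have e3 : ((4 : ℝ) ^ (1 - 2 * s)) ^ t = (4 : ℝ) ^ ((1 - 2 * s) * (t : ℝ)) := by
    rw [Real.rpow_mul (by norm_num), Real.rpow_natCast]
  rw [e1, e2, e3, ← Real.rpow_mul (by norm_num), ← Real.rpow_add (by norm_num)]
  congr 1
  ring

variable {τ P : ℕ → ℕ} {Qs : ℕ → Finset ℕ}

lemma mass_le (hsc : ∀ k, Scale (τ k) (P k) (Qs k)) (s : ℝ) (hs : 1 / 2 < s) (k : ℕ) :
    ∑ q ∈ Qs k, (q : ℝ) ^ (-s) ≤ (τ k : ℝ) ^ 1 * ((4 : ℝ) ^ (1 - 2 * s)) ^ τ k := by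
  have h3 : ∀ q ∈ Qs k, (q : ℝ) ^ (-s) ≤ ((16 : ℝ) ^ (τ k)) ^ (-s) := by
    intro q hq
    refine Real.rpow_le_rpow_of_nonpos (by positivity) ?_ (by linarith)
    have h4 := (lo_mem hsc hq).1
    have h5 : 16 ^ τ k ≤ 16 ^ (τ k + 1) := Nat.pow_le_pow_right (by norm_num) (by omega)
    exact_mod_cast h5.trans h4.le
  refine (sum_le_sum h3).trans (le_of_eq ?_)
  rw [sum_const, nsmul_eq_mul, (hsc k).cd, ← four_pow]
  push_cast
  rfl

lemma tau_inj (hgap : ∀ k, τ k + 2 ≤ τ (k + 1)) : Function.Injective τ :=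
  (strictMono_nat_of_lt_succ fun k => by
    have := hgap k
    omega).injective

lemma sum_all (hsc : ∀ k, Scale (τ k) (P k) (Qs k)) (hgap : ∀ k, τ k + 2 ≤ τ (k + 1)) (s : ℝ)
    (hs : 1 / 2 < s) : Summable fun k : ℕ => ∑ q ∈ Qs k, (q : ℝ) ^ (-s) := by
  set r : ℝ := (4 : ℝ) ^ (1 - 2 * s) with hr
  have hr0 : 0 < r := Real.rpow_pos_of_pos (by norm_num) _
  have hr1 : r < 1 := Real.rpow_lt_one_of_one_lt_of_neg (by norm_num) (by linarith)
  have h2 : Summable fun t : ℕ => (t : ℝ) ^ 1 * r ^ t :=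
    summable_pow_mul_geometric_of_norm_lt_one 1 (by
      rw [Real.norm_eq_abs, abs_of_pos hr0]
      exact hr1)
  have h3 : Summable fun k : ℕ => (τ k : ℝ) ^ 1 * r ^ τ k := h2.comp_injective (tau_inj hgap)
  exact Summable.of_nonneg_of_le (fun k => sum_nonneg fun y _ => Real.rpow_nonneg (Nat.cast_nonneg _) _)
    (fun k => mass_le hsc s hs k) h3

/-- the exponent of convergence of the changed primes is at most `1/2` -/
theorem thin (hsc : ∀ k, Scale (τ k) (P k) (Qs k)) (hgap : ∀ k, τ k + 2 ≤ τ (k + 1)) (s : ℝ)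
    (hs : 1 / 2 < s) (Q : Set ℕ) (hQ : ∀ q ∈ Q, ∃ k, q ∈ Qs k) :
    Summable fun q : Q => ((q : ℕ) : ℝ) ^ (-s) := by
  classical
  have h0 := sum_all hsc hgap s hs
  have hnn : ∀ q : ℕ, 0 ≤ (q : ℝ) ^ (-s) := fun q => Real.rpow_nonneg (Nat.cast_nonneg _) _
  choose! idx hidx using hQ
  refine summable_of_sum_le (c := ∑' k, ∑ q ∈ Qs k, (q : ℝ) ^ (-s)) (fun q => hnn _) fun u => ?_
  have h1 : ∑ q ∈ u, ((q : ℕ) : ℝ) ^ (-s) = ∑ q ∈ u.image (fun q : Q => (q : ℕ)), (q : ℝ) ^ (-s) := by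
    rw [sum_image fun a _ b _ h => Subtype.ext h]
  set K := u.image (fun q : Q => idx q) with hK
  have h2 : u.image (fun q : Q => (q : ℕ)) ⊆ K.biUnion Qs := by
    intro q hq
    rw [mem_image] at hq
    obtain ⟨q', hq', rfl⟩ := hq
    rw [mem_biUnion]
    exact ⟨idx q', mem_image_of_mem _ hq', hidx q' q'.2⟩
  rw [h1]
  refine (sum_le_sum_of_subset_of_nonneg h2 fun q _ _ => hnn q).trans ?_
  rw [sum_biUnion]
  · exact h0.sum_le_tsum _ fun k _ => sum_nonneg fun q _ => hnn q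
  · intro i _ j _ hij
    rw [Function.onFun, disjoint_left]
    intro q hq hq'
    exact hij (idx_unique hsc hgap hq hq')

end Pool.Agent.H611.ST
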